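import Pool.Agent.Run7.h736.AU.Link

/-! Systems of places; systems of eigenvalues.  (The library `AU` over an arbitrary system of places.) -/

set_option autoImplicit false
set_option linter.unusedSectionVars false

open Filter Topology Complex ComplexConjugate Finset

namespace Run7.h736.NF

open Run7.h736.AU (ps ten ps_zero ps_cons ps_add ps_smul ps_conj ten_zero ten_cons ps_ten ten_smul
  norm_ps_le factor_hasSum log_atTop div_log)

/-- A system of places with their norms, for example the nonzero prime ideals of a number field: the norms are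
greater than `1`, and the sum of the `nm p ^ (-(1 + ε))` converges for `ε > 0`. -/
class Places (𝔓 : Type) where
  nm : 𝔓 → ℕ
  one_lt : ∀ p, 1 < nm p
  sum : ∀ ε : ℝ, 0 < ε → Summable fun p => (nm p : ℝ) ^ (-(1 + ε))

instance {𝔓 : Type} [Places 𝔓] : CoeOut 𝔓 ℕ := ⟨Places.nm⟩

theorem Places.pos {𝔓 : Type} [Places 𝔓] (p : 𝔓) : 0 < (p : ℕ) := by
  have := Places.one_lt p
  show 0 < Places.nm p
  omega

theorem Places.ne_zero {𝔓 : Type} [Places 𝔓] (p : 𝔓) : (p : ℕ) ≠ 0 := (Places.pos p).ne'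

theorem Places.two_le {𝔓 : Type} [Places 𝔓] (p : 𝔓) : 2 ≤ (p : ℕ) := Places.one_lt p

theorem Places.summable_two {𝔓 : Type} [Places 𝔓] :
    Summable fun p : 𝔓 => ((p : ℕ) : ℝ) ^ (-2 : ℝ) := by
  refine (Places.sum 1 one_pos).congr fun p => ?_
  norm_num

variable {𝔓 : Type} [Places 𝔓]



/-- A system of eigenvalues: for every prime `p` outside the finite set `bad` the multiset `ev p` of `rank`
complex numbers of absolute value less than `√p`.  For example, the Satake parameters of a unitary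
cuspidal automorphic representation of `GL(n)` over `ℚ`, `n = rank`, at the primes outside a finite set
`bad` that contains the ramified ones (Jacquet and Shalika). -/
structure Sys (𝔓 : Type) [Places 𝔓] where
  bad : Finset 𝔓
  rank : ℕ
  ev : 𝔓 → Multiset ℂ
  card : ∀ p, p ∉ bad → Multiset.card (ev p) = rank
  bound : ∀ p, p ∉ bad → ∀ z ∈ ev p, ‖z‖ < Real.sqrt (p : ℕ)

variable [DecidableEq 𝔓]

/-- The trace of the power `k + 1`, `0` at the exceptional primes. -/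
noncomputable def Sys.tr (S : Sys 𝔓) (q : 𝔓 × ℕ) : ℂ :=
  if q.1 ∈ S.bad then 0 else ps (S.ev q.1) (q.2 + 1)

/-- the weight `1 / ((k + 1) p ^ ((k + 1) (1 + ε)))` -/
noncomputable def om (ε : ℝ) (q : 𝔓 × ℕ) : ℝ :=
  ((q.1 : ℕ) : ℝ) ^ (-((q.2 + 1 : ℝ) * (1 + ε))) / (q.2 + 1)

theorem om_pos (ε : ℝ) (q : 𝔓 × ℕ) : 0 < om ε q := by
  have : (0 : ℝ) < ((q.1 : ℕ) : ℝ) := by exact_mod_cast (Places.pos q.1)
  unfold om
  positivity

theorem om_eq (ε : ℝ) (p : 𝔓) (k : ℕ) :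
    om ε (p, k) = (((p : ℕ) : ℝ) ^ (-(1 + ε))) ^ (k + 1) / (k + 1) := by
  have h0 : (0 : ℝ) ≤ ((p : ℕ) : ℝ) := Nat.cast_nonneg _
  unfold om
  simp only
  rw [← Real.rpow_natCast, ← Real.rpow_mul h0]
  congr 2
  push_cast
  ring

/-- the traces are square summable, that is, `L(s, S × S~)` converges for `s > 1` -/
def Sys.Conv (S : Sys 𝔓) : Prop :=
  ∀ ε : ℝ, 0 < ε → Summable fun q : 𝔓 × ℕ => om ε q * ‖S.tr q‖ ^ 2

/-- the complex pairing -/
noncomputable def cip (ε : ℝ) (u v : 𝔓 × ℕ → ℂ) : ℂ :=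
  ∑' q, (om ε q : ℂ) * (u q * conj (v q))

/-- square summability -/
def SqS (u : 𝔓 × ℕ → ℂ) : Prop :=
  ∀ ε : ℝ, 0 < ε → Summable fun q : 𝔓 × ℕ => om ε q * ‖u q‖ ^ 2

theorem summable_pair {u v : 𝔓 × ℕ → ℂ} (hu : SqS u) (hv : SqS v) {ε : ℝ} (hε : 0 < ε) :
    Summable fun q => (om ε q : ℂ) * (u q * conj (v q)) := by
  refine Summable.of_norm_bounded ((hu ε hε).add (hv ε hε)) fun q => ?_
  rw [norm_mul, norm_mul, RCLike.norm_conj, Complex.norm_real, Real.norm_eq_abs,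
    abs_of_pos (om_pos ε q)]
  have h := om_pos ε q
  nlinarith [sq_nonneg (‖u q‖ - ‖v q‖), norm_nonneg (u q), norm_nonneg (v q),
    mul_nonneg h.le (sq_nonneg (‖u q‖ - ‖v q‖)), mul_nonneg h.le (sq_nonneg ‖u q‖),
    mul_nonneg h.le (sq_nonneg ‖v q‖)]

/-- The Euler factor of `S × T~` at `p`. -/
noncomputable def fac (S T : Sys 𝔓) (p : 𝔓) (s : ℂ) : ℂ :=
  (((ten (S.ev p) ((T.ev p).map conj)).map fun z => 1 - z * ((p : ℕ) : ℂ) ^ (-s)).prod)⁻¹

/-- The `L`-function of `S × T~`, without the factors at the exceptional primes of `S` and `T`. -/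
noncomputable def RS (S T : Sys 𝔓) (s : ℂ) : ℂ :=
  ∏' p : 𝔓, if p ∈ S.bad ∪ T.bad then 1 else fac S T p s

theorem norm_cpow_prime (p : 𝔓) (s : ℂ) : ‖((p : ℕ) : ℂ) ^ (-s)‖ = ((p : ℕ) : ℝ) ^ (-s.re) := by
  have h := Complex.norm_natCast_cpow_of_pos (Places.pos p) (-s)
  rw [h, Complex.neg_re]

theorem ten_bound {S T : Sys 𝔓} {p : 𝔓} (hS : p ∉ S.bad) (hT : p ∉ T.bad) {z : ℂ}
    (hz : z ∈ ten (S.ev p) ((T.ev p).map conj)) : ‖z‖ < (p : ℕ) := by
  unfold ten at hz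
  obtain ⟨x, hx, rfl⟩ := Multiset.mem_map.1 hz
  obtain ⟨h1, h2⟩ := Multiset.mem_product.1 hx
  obtain ⟨y, hy, h3⟩ := Multiset.mem_map.1 h2
  have a1 := S.bound p hS _ h1
  have a2 := T.bound p hT _ hy
  rw [norm_mul, ← h3, RCLike.norm_conj]
  have a3 : Real.sqrt (p : ℕ) * Real.sqrt (p : ℕ) = (p : ℕ) := Real.mul_self_sqrt (Nat.cast_nonneg _)
  rw [← a3]
  exact mul_lt_mul'' a1 a2 (norm_nonneg _) (norm_nonneg _)

theorem pow_lt_one' {S T : Sys 𝔓} {p : 𝔓} (hS : p ∉ S.bad) (hT : p ∉ T.bad) {z s : ℂ}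
    (hz : z ∈ ten (S.ev p) ((T.ev p).map conj)) (hs : 1 ≤ s.re) :
    ‖z * ((p : ℕ) : ℂ) ^ (-s)‖ < 1 := by
  have hp : (1 : ℝ) < (p : ℕ) := by exact_mod_cast (Places.one_lt p)
  have h1 := ten_bound hS hT hz
  rw [norm_mul, norm_cpow_prime]
  have h2 : ((p : ℕ) : ℝ) ^ (-s.re) ≤ ((p : ℕ) : ℝ) ^ (-1 : ℝ) :=
    Real.rpow_le_rpow_of_exponent_le hp.le (by linarith)
  have h3 : ((p : ℕ) : ℝ) ^ (-1 : ℝ) = ((p : ℕ) : ℝ)⁻¹ := Real.rpow_neg_one _
  have h4 : 0 < ((p : ℕ) : ℝ) ^ (-s.re) := by positivity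
  calc ‖z‖ * ((p : ℕ) : ℝ) ^ (-s.re) < (p : ℕ) * ((p : ℕ) : ℝ) ^ (-s.re) := by
        exact mul_lt_mul_of_pos_right h1 h4
    _ ≤ (p : ℕ) * ((p : ℕ) : ℝ)⁻¹ := by
        rw [← h3]
        exact mul_le_mul_of_nonneg_left h2 (by positivity)
    _ = 1 := by
        rw [mul_inv_cancel₀ (by positivity)]

/-- the local logarithm -/
theorem local_log {S T : Sys 𝔓} {p : 𝔓} (hS : p ∉ S.bad) (hT : p ∉ T.bad) {ε : ℝ}
    (hε : 0 ≤ ε) : ∃ L : ℂ, HasSum (fun k : ℕ => (om ε (p, k) : ℂ) *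
      (S.tr (p, k) * conj (T.tr (p, k)))) L ∧ Complex.exp L = fac S T p (1 + ε) := by
  have hs : (1 : ℝ) ≤ ((1 : ℂ) + (ε : ℂ)).re := by simpa using hε
  obtain ⟨L, h1, h2⟩ := factor_hasSum
    (s := (ten (S.ev p) ((T.ev p).map conj)).map fun z => z * ((p : ℕ) : ℂ) ^ (-(1 + (ε : ℂ))))
    (fun z hz => by
      obtain ⟨x, hx, rfl⟩ := Multiset.mem_map.1 hz
      exact pow_lt_one' hS hT hx hs)
  refine ⟨L, ?_, ?_⟩
  · refine h1.congr_fun ?_
    intro k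
    unfold Sys.tr
    simp only [if_neg hS, if_neg hT]
    have e1 : (ten (S.ev p) ((T.ev p).map conj)).map
        (fun z => z * ((p : ℕ) : ℂ) ^ (-(1 + (ε : ℂ)))) =
        (ten (S.ev p) ((T.ev p).map conj)).map
        (fun z => ((p : ℕ) : ℂ) ^ (-(1 + (ε : ℂ))) * z) :=
      Multiset.map_congr rfl fun z _ => mul_comm _ _
    rw [e1, ps_smul, ps_ten, ps_conj, om_eq]
    have e2 : (((p : ℕ) : ℂ) ^ (-(1 + (ε : ℂ)))) = (((((p : ℕ) : ℝ) ^ (-(1 + ε)) : ℝ)) : ℂ) := by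
      rw [Complex.ofReal_cpow (Nat.cast_nonneg _)]
      push_cast
      ring_nf
    rw [e2]
    push_cast
    ring
  · rw [h2, Multiset.map_map]
    rfl


end Run7.h736.NF
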