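import Pool.Agent.Run7.h736.NF.P1

/-! The Euler product and the pairing; bounded vectors; Gram matrices. -/

set_option autoImplicit false
set_option linter.unusedSectionVars false

open Filter Topology Complex ComplexConjugate Finset

namespace Run7.h736.NF

open Run7.h736.AU (ps ten ps_zero ps_cons ps_add ps_smul ps_conj ten_zero ten_cons ps_ten ten_smul
  norm_ps_le factor_hasSum log_atTop div_log)

variable {𝔓 : Type} [Places 𝔓] [DecidableEq 𝔓]

/-- the sum over `k` of the pairing at `p` -/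
noncomputable def loc (ε : ℝ) (u v : 𝔓 × ℕ → ℂ) (p : 𝔓) : ℂ :=
  ∑' k : ℕ, (om ε (p, k) : ℂ) * (u (p, k) * conj (v (p, k)))

theorem loc_hasSum {u v : 𝔓 × ℕ → ℂ} (hu : SqS u) (hv : SqS v) {ε : ℝ} (hε : 0 < ε) :
    HasSum (loc ε u v) (cip ε u v) :=
  (summable_pair hu hv hε).hasSum.prod_fiberwise fun p =>
    ((summable_pair hu hv hε).comp_injective (Prod.mk_right_injective p)).hasSum

theorem exp_loc {S T : Sys 𝔓} {p : 𝔓} (hS : p ∉ S.bad) (hT : p ∉ T.bad) {ε : ℝ}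
    (hε : 0 ≤ ε) : Complex.exp (loc ε S.tr T.tr p) = fac S T p (1 + ε) := by
  obtain ⟨L, h1, h2⟩ := local_log hS hT hε
  unfold loc
  rw [h1.tsum_eq, h2]

theorem loc_bad {S T : Sys 𝔓} {p : 𝔓} (h : p ∈ S.bad ∪ T.bad) (ε : ℝ) :
    loc ε S.tr T.tr p = 0 := by
  unfold loc
  have : (fun k : ℕ => (om ε (p, k) : ℂ) * (S.tr (p, k) * conj (T.tr (p, k)))) = fun _ => 0 := by
    funext k
    unfold Sys.tr
    rcases Finset.mem_union.1 h with h1 | h1
    · simp [h1]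
    · simp [h1]
  rw [this, tsum_zero]

/-- **The Rankin-Selberg product and the pairing.** -/
theorem RS_eq {S T : Sys 𝔓} (hS : SqS S.tr) (hT : SqS T.tr) {ε : ℝ} (hε : 0 < ε) :
    RS S T (1 + ε) = Complex.exp (cip ε S.tr T.tr) := by
  have h1 := (loc_hasSum hS hT hε).cexp
  unfold RS
  rw [← h1.tprod_eq]
  refine tprod_congr fun p => ?_
  simp only [Function.comp_apply]
  split_ifs with h
  · rw [loc_bad h, Complex.exp_zero]
  · rw [Finset.mem_union, not_or] at h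
    rw [exp_loc h.1 h.2 hε.le]

theorem log_RS {S T : Sys 𝔓} (hS : SqS S.tr) (hT : SqS T.tr) {ε : ℝ} (hε : 0 < ε) :
    Real.log ‖RS S T (1 + ε)‖ = (cip ε S.tr T.tr).re := by
  rw [RS_eq hS hT hε, Complex.norm_exp, Real.log_exp]


theorem om_le_high {ε : ℝ} (hε : 0 ≤ ε) (p : 𝔓) (k : ℕ) :
    om ε (p, k + 1) ≤ (1 / ((p : ℕ) : ℝ)) ^ (k + 2) := by
  have hp : (1 : ℝ) ≤ (p : ℕ) := by exact_mod_cast (Places.one_lt p).le
  have hp0 : (0 : ℝ) < (p : ℕ) := by linarith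
  rw [om_eq]
  have h1 : ((p : ℕ) : ℝ) ^ (-(1 + ε)) ≤ 1 / (p : ℕ) := by
    rw [one_div, ← Real.rpow_neg_one]
    exact Real.rpow_le_rpow_of_exponent_le hp (by linarith)
  have h2 : (0 : ℝ) ≤ ((p : ℕ) : ℝ) ^ (-(1 + ε)) := by positivity
  have h3 := pow_le_pow_left₀ h2 h1 (k + 1 + 1)
  refine le_trans (div_le_self (by positivity) ?_) h3
  have : (0 : ℝ) ≤ (k : ℝ) := Nat.cast_nonneg _
  push_cast
  linarith

/-- the prime powers contribute a bounded amount -/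
theorem sum_high : ∃ C : ℝ, 0 ≤ C ∧ ∀ ε : ℝ, 0 < ε →
    Summable (fun q : 𝔓 × ℕ => om ε (q.1, q.2 + 1)) ∧
    ∑' q : 𝔓 × ℕ, om ε (q.1, q.2 + 1) ≤ C := by
  have hb : ∀ (p : 𝔓) (k : ℕ) (ε : ℝ), 0 ≤ ε →
      om ε (p, k + 1) ≤ (1 / ((p : ℕ) : ℝ)) ^ (k + 2) := by
    intro p k ε hε
    have hp : (1 : ℝ) ≤ (p : ℕ) := by exact_mod_cast (Places.one_lt p).le
    have hp0 : (0 : ℝ) < (p : ℕ) := by linarith
    rw [om_eq]
    have h1 : ((p : ℕ) : ℝ) ^ (-(1 + ε)) ≤ 1 / (p : ℕ) := by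
      rw [one_div, ← Real.rpow_neg_one]
      exact Real.rpow_le_rpow_of_exponent_le hp (by linarith)
    have h2 : (0 : ℝ) ≤ ((p : ℕ) : ℝ) ^ (-(1 + ε)) := by positivity
    have h3 := pow_le_pow_left₀ h2 h1 (k + 1 + 1)
    refine le_trans (div_le_self (by positivity) ?_) h3
    have : (0 : ℝ) ≤ (k : ℝ) := Nat.cast_nonneg _
    push_cast
    linarith
  have hsum : Summable fun q : 𝔓 × ℕ => (1 / ((q.1 : ℕ) : ℝ)) ^ (q.2 + 2) := by
    rw [summable_prod_of_nonneg (fun q => by positivity)]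
    have hg : ∀ p : 𝔓, HasSum (fun k : ℕ => (1 / ((p : ℕ) : ℝ)) ^ (k + 2))
        ((1 / ((p : ℕ) : ℝ)) ^ 2 * (1 - 1 / ((p : ℕ) : ℝ))⁻¹) := by
      intro p
      have hp : (1 : ℝ) < (p : ℕ) := by exact_mod_cast (Places.one_lt p)
      have h1 := (hasSum_geometric_of_lt_one (r := 1 / ((p : ℕ) : ℝ)) (by positivity) (by
        rw [div_lt_one (by linarith)]; exact hp)).mul_left ((1 / ((p : ℕ) : ℝ)) ^ 2)
      refine h1.congr_fun fun k => ?_
      ring
    refine ⟨fun p => (hg p).summable, ?_⟩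
    have h2 : Summable fun p : 𝔓 => 2 * ((p : ℕ) : ℝ) ^ (-2 : ℝ) := by
      refine Summable.mul_left _ ?_
      exact Places.summable_two
    refine Summable.of_nonneg_of_le (fun p => tsum_nonneg fun k => by positivity) (fun p => ?_) h2
    rw [(hg p).tsum_eq]
    have hp : (2 : ℝ) ≤ (p : ℕ) := by exact_mod_cast (Places.two_le p)
    have h3 : 1 / ((p : ℕ) : ℝ) ≤ 1 / 2 := one_div_le_one_div_of_le (by norm_num) hp
    have h4 : (1 - 1 / ((p : ℕ) : ℝ))⁻¹ ≤ 2 := by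
      rw [inv_le_comm₀ (by linarith) (by norm_num)]
      linarith
    have h5 : (1 / ((p : ℕ) : ℝ)) ^ 2 = ((p : ℕ) : ℝ) ^ (-2 : ℝ) := by
      rw [Real.rpow_neg (by positivity), one_div, inv_pow]
      norm_num
    rw [h5, mul_comm]
    exact mul_le_mul_of_nonneg_right h4 (by positivity)
  refine ⟨∑' q : 𝔓 × ℕ, (1 / ((q.1 : ℕ) : ℝ)) ^ (q.2 + 2),
    tsum_nonneg fun q => by positivity, fun ε hε => ?_⟩
  have h1 : Summable (fun q : 𝔓 × ℕ => om ε (q.1, q.2 + 1)) :=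
    Summable.of_nonneg_of_le (fun q => (om_pos ε _).le) (fun q => hb q.1 q.2 ε hε.le) hsum
  exact ⟨h1, h1.tsum_le_tsum (fun q => hb q.1 q.2 ε hε.le) hsum⟩

theorem summable_om {ε : ℝ} (hε : 0 < ε) : Summable (om ε : 𝔓 × ℕ → ℝ) := by
  rw [summable_prod_of_nonneg (fun q => (om_pos ε q).le)]
  have hr : ∀ p : 𝔓, ((p : ℕ) : ℝ) ^ (-(1 + ε)) ≤ 1 / 2 := by
    intro p
    have hp : (2 : ℝ) ≤ (p : ℕ) := by exact_mod_cast (Places.two_le p)
    have h1 : ((p : ℕ) : ℝ) ^ (-(1 + ε)) ≤ ((p : ℕ) : ℝ) ^ (-(1 : ℝ)) :=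
      Real.rpow_le_rpow_of_exponent_le (by linarith) (by linarith)
    rw [Real.rpow_neg_one] at h1
    refine h1.trans ?_
    rw [one_div]
    exact inv_anti₀ (by norm_num) hp
  have hg : ∀ p : 𝔓, Summable (fun k : ℕ => om ε (p, k)) ∧
      ∑' k : ℕ, om ε (p, k) ≤ 2 * ((p : ℕ) : ℝ) ^ (-(1 + ε)) := by
    intro p
    set r : ℝ := ((p : ℕ) : ℝ) ^ (-(1 + ε)) with hrdef
    have hr0 : 0 ≤ r := by positivity
    have hr1 : r < 1 := by linarith [hr p]
    have h1 : HasSum (fun k : ℕ => r * r ^ k) (r * (1 - r)⁻¹) :=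
      (hasSum_geometric_of_lt_one hr0 hr1).mul_left r
    have hle : ∀ k : ℕ, om ε (p, k) ≤ r * r ^ k := by
      intro k
      rw [om_eq, ← hrdef, pow_succ, mul_comm]
      refine div_le_self (by positivity) ?_
      have : (0 : ℝ) ≤ (k : ℝ) := Nat.cast_nonneg _
      linarith
    have h2 := Summable.of_nonneg_of_le (fun k => (om_pos ε (p, k)).le) hle h1.summable
    refine ⟨h2, (h2.tsum_le_tsum hle h1.summable).trans ?_⟩
    rw [h1.tsum_eq, mul_comm]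
    refine mul_le_mul_of_nonneg_right ?_ hr0
    rw [inv_le_comm₀ (by linarith) (by norm_num)]
    linarith [hr p]
  refine ⟨fun p => (hg p).1, ?_⟩
  exact Summable.of_nonneg_of_le (fun p => tsum_nonneg fun k => (om_pos ε (p, k)).le)
    (fun p => (hg p).2) ((Places.sum ε hε).mul_left 2)

theorem sqs_bdd {u : 𝔓 × ℕ → ℂ} {A : ℝ} (h : ∀ q, ‖u q‖ ≤ A) : SqS u := by
  intro ε hε
  refine Summable.of_nonneg_of_le (fun q => by have := (om_pos ε q).le; positivity) (fun q => ?_)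
    ((summable_om hε).mul_right (A ^ 2))
  exact mul_le_mul_of_nonneg_left (pow_le_pow_left₀ (norm_nonneg _) (h q) 2) (om_pos ε q).le



/-- `log (1 / ε)` -/
noncomputable def La (ε : ℝ) : ℝ := Real.log (1 / ε)

theorem rip_hasSum {u v : 𝔓 × ℕ → ℂ} (hu : SqS u) (hv : SqS v) {ε : ℝ} (hε : 0 < ε) :
    HasSum (fun q => om ε q * (u q * conj (v q)).re) (cip ε u v).re := by
  have h := Complex.hasSum_re (summable_pair hu hv hε).hasSum
  refine h.congr_fun fun q => ?_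
  rw [Complex.re_ofReal_mul]

theorem self_hasSum {u : 𝔓 × ℕ → ℂ} (hu : SqS u) {ε : ℝ} (hε : 0 < ε) :
    HasSum (fun q => om ε q * ‖u q‖ ^ 2) (cip ε u u).re := by
  refine (rip_hasSum hu hu hε).congr_fun fun q => ?_
  rw [Complex.mul_conj, Complex.ofReal_re, Complex.normSq_eq_norm_sq]

theorem SqS.smul {u : 𝔓 × ℕ → ℂ} (hu : SqS u) (c : ℂ) : SqS fun q => c * u q := by
  intro ε hε
  refine ((hu ε hε).mul_left (‖c‖ ^ 2)).congr fun q => ?_
  rw [norm_mul]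
  ring

theorem SqS.add {u v : 𝔓 × ℕ → ℂ} (hu : SqS u) (hv : SqS v) : SqS fun q => u q + v q := by
  intro ε hε
  refine Summable.of_nonneg_of_le (fun q => by have := (om_pos ε q).le; positivity) (fun q => ?_)
    (((hu ε hε).add (hv ε hε)).mul_left 2)
  have h1 := norm_add_le (u q) (v q)
  have h2 := om_pos ε q
  have h3 : ‖u q + v q‖ ^ 2 ≤ 2 * (‖u q‖ ^ 2 + ‖v q‖ ^ 2) := by
    nlinarith [norm_nonneg (u q + v q), norm_nonneg (u q), norm_nonneg (v q),
      sq_nonneg (‖u q‖ - ‖v q‖)]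
  nlinarith

theorem SqS.sum {X : Type} (F : Finset X) {v : X → 𝔓 × ℕ → ℂ} (hv : ∀ x ∈ F, SqS (v x)) :
    SqS fun q => ∑ x ∈ F, v x q := by
  classical
  induction F using Finset.induction_on with
  | empty =>
    intro ε hε
    simp
  | insert a F ha ih =>
    have h1 := (hv a (Finset.mem_insert_self _ _)).add
      (ih fun x hx => hv x (Finset.mem_insert_of_mem hx))
    refine fun ε hε => (h1 ε hε).congr fun q => ?_
    simp only [Finset.sum_insert ha]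

/-- the expansion of the square of the distance -/
theorem expand {X : Type} (F : Finset X) (c : X → ℝ) {u : 𝔓 × ℕ → ℂ}
    {v : X → 𝔓 × ℕ → ℂ} (hu : SqS u) (hv : ∀ x ∈ F, SqS (v x)) {ε : ℝ} (hε : 0 < ε) :
    HasSum (fun q => om ε q * ‖u q - ∑ x ∈ F, (c x : ℂ) * v x q‖ ^ 2)
      ((cip ε u u).re - 2 * ∑ x ∈ F, c x * (cip ε u (v x)).re +
        ∑ x ∈ F, ∑ y ∈ F, c x * c y * (cip ε (v x) (v y)).re) := by
  have h1 := self_hasSum hu hε
  have h2 : HasSum (fun q => ∑ x ∈ F, c x * (om ε q * (u q * conj (v x q)).re))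
      (∑ x ∈ F, c x * (cip ε u (v x)).re) :=
    hasSum_sum fun x hx => (rip_hasSum hu (hv x hx) hε).mul_left (c x)
  have h3 : HasSum (fun q => ∑ x ∈ F, ∑ y ∈ F, c x * c y * (om ε q * (v x q * conj (v y q)).re))
      (∑ x ∈ F, ∑ y ∈ F, c x * c y * (cip ε (v x) (v y)).re) :=
    hasSum_sum fun x hx => hasSum_sum fun y hy =>
      (rip_hasSum (hv x hx) (hv y hy) hε).mul_left (c x * c y)
  refine ((h1.sub (h2.mul_left 2)).add h3).congr_fun fun q => ?_
  have e1 : ∀ z : ℂ, ‖z‖ ^ 2 = (z * conj z).re := fun z => by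
    rw [Complex.mul_conj, Complex.ofReal_re, Complex.normSq_eq_norm_sq]
  have e2 : (u q - ∑ x ∈ F, (c x : ℂ) * v x q) * conj (u q - ∑ x ∈ F, (c x : ℂ) * v x q) =
      u q * conj (u q) - (∑ x ∈ F, (c x : ℂ) * (u q * conj (v x q))) -
      (∑ x ∈ F, (c x : ℂ) * conj (u q * conj (v x q))) +
      ∑ x ∈ F, ∑ y ∈ F, (c x : ℂ) * (c y : ℂ) * (v x q * conj (v y q)) := by
    rw [map_sub, map_sum, sub_mul, mul_sub, mul_sub, Finset.mul_sum, Finset.sum_mul,
      Finset.sum_mul_sum]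
    have a1 : ∑ x ∈ F, u q * conj ((c x : ℂ) * v x q) = ∑ x ∈ F, (c x : ℂ) * (u q * conj (v x q)) :=
      Finset.sum_congr rfl fun x _ => by
        rw [map_mul, Complex.conj_ofReal]
        ring
    have a2 : ∑ x ∈ F, (c x : ℂ) * v x q * conj (u q) =
        ∑ x ∈ F, (c x : ℂ) * conj (u q * conj (v x q)) :=
      Finset.sum_congr rfl fun x _ => by
        rw [map_mul, Complex.conj_conj]
        ring
    have a3 : ∑ x ∈ F, ∑ y ∈ F, (c x : ℂ) * v x q * conj ((c y : ℂ) * v y q) =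
        ∑ x ∈ F, ∑ y ∈ F, (c x : ℂ) * (c y : ℂ) * (v x q * conj (v y q)) :=
      Finset.sum_congr rfl fun x _ => Finset.sum_congr rfl fun y _ => by
        rw [map_mul, Complex.conj_ofReal]
        ring
    rw [a1, a2, a3]
    ring
  rw [e1, e2]
  simp only [Complex.add_re, Complex.sub_re, Complex.re_sum, Complex.re_ofReal_mul,
    Complex.conj_re]
  have b1 : ∀ x y : X, ((c x : ℂ) * (c y : ℂ) * (v x q * conj (v y q))).re =
      c x * c y * (v x q * conj (v y q)).re := fun x y => by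
    rw [← Complex.ofReal_mul, Complex.re_ofReal_mul]
  simp only [b1]
  rw [← e1]
  have c2 : ∑ x ∈ F, c x * (om ε q * (u q * conj (v x q)).re) =
      om ε q * ∑ x ∈ F, c x * (u q * conj (v x q)).re := by
    rw [Finset.mul_sum]
    exact Finset.sum_congr rfl fun x _ => by ring
  have c3 : ∑ x ∈ F, ∑ y ∈ F, c x * c y * (om ε q * (v x q * conj (v y q)).re) =
      om ε q * ∑ x ∈ F, ∑ y ∈ F, c x * c y * (v x q * conj (v y q)).re := by
    rw [Finset.mul_sum]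
    refine Finset.sum_congr rfl fun x _ => ?_
    rw [Finset.mul_sum]
    exact Finset.sum_congr rfl fun y _ => by ring
  rw [c2, c3]
  ring

/-- **Bessel's inequality.** -/
theorem bessel {X : Type} [DecidableEq X] (F : Finset X) {u : 𝔓 × ℕ → ℂ}
    {v : X → 𝔓 × ℕ → ℂ} (hu : SqS u) (hv : ∀ x ∈ F, SqS (v x)) {K : ℝ}
    (hK : ∀ᶠ ε : ℝ in 𝓝[>] 0, (cip ε u u).re / La ε ≤ K)
    (hG : ∀ x ∈ F, ∀ y ∈ F, Tendsto (fun ε => (cip ε (v x) (v y)).re / La ε) (𝓝[>] 0)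
      (𝓝 (if x = y then 1 else 0))) {η : ℝ} (hη : 0 < η) :
    ∀ᶠ ε : ℝ in 𝓝[>] 0, ∑ x ∈ F, ((cip ε u (v x)).re / La ε) ^ 2 ≤ (cip ε u u).re / La ε + η := by
  obtain ⟨θ, hθ0, hθ1, hθ2⟩ : ∃ θ : ℝ, 0 < θ ∧ θ ≤ 1 / 2 ∧ 2 * |K| * θ ≤ η := by
    refine ⟨min (1 / 2) (η / (2 * |K| + 1)), by positivity, min_le_left _ _, ?_⟩
    have h1 : min (1 / 2) (η / (2 * |K| + 1)) ≤ η / (2 * |K| + 1) := min_le_right _ _
    calc 2 * |K| * min (1 / 2) (η / (2 * |K| + 1)) ≤ (2 * |K| + 1) * (η / (2 * |K| + 1)) := by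
          gcongr
          linarith
      _ = η := by field_simp
  set m : ℝ := (F.card : ℝ) with hm
  have hm0 : 0 ≤ m := Nat.cast_nonneg _
  have hg : ∀ᶠ ε : ℝ in 𝓝[>] 0, ∀ x ∈ F, ∀ y ∈ F,
      |(cip ε (v x) (v y)).re / La ε - (if x = y then 1 else 0)| ≤ θ / (m + 1) := by
    rw [Filter.eventually_all_finset]
    intro x hx
    rw [Filter.eventually_all_finset]
    intro y hy
    have h1 := (hG x hx y hy).sub_const (if x = y then 1 else 0)
    rw [sub_self] at h1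
    have h2 := h1.abs
    rw [abs_zero] at h2
    exact (h2.eventually (gt_mem_nhds (show (0 : ℝ) < θ / (m + 1) by positivity))).mono
      fun ε h => le_of_lt h
  have hL : ∀ᶠ ε : ℝ in 𝓝[>] 0, 0 < La ε := log_atTop.eventually_gt_atTop 0
  filter_upwards [hK, hg, hL, self_mem_nhdsWithin] with ε h1 h2 h3 h4
  have hε : 0 < ε := h4
  set s : X → ℝ := fun x => (cip ε u (v x)).re / La ε with hs
  set U : ℝ := (cip ε u u).re / La ε with hU
  set g : X → X → ℝ := fun x y => (cip ε (v x) (v y)).re / La ε with hgd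
  have h5 : 0 ≤ (cip ε u u).re - 2 * ∑ x ∈ F, s x * (cip ε u (v x)).re +
        ∑ x ∈ F, ∑ y ∈ F, s x * s y * (cip ε (v x) (v y)).re :=
    (expand F s hu hv hε).nonneg fun q => by have := (om_pos ε q).le; positivity
  have h6 : 0 ≤ U - 2 * ∑ x ∈ F, s x ^ 2 + ∑ x ∈ F, ∑ y ∈ F, s x * s y * g x y := by
    have h7 := div_nonneg h5 h3.le
    have e1 : (∑ x ∈ F, s x * (cip ε u (v x)).re) / La ε = ∑ x ∈ F, s x ^ 2 := by
      rw [Finset.sum_div]
      refine Finset.sum_congr rfl fun x _ => ?_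
      simp only [hs]
      ring
    have e2 : (∑ x ∈ F, ∑ y ∈ F, s x * s y * (cip ε (v x) (v y)).re) / La ε =
        ∑ x ∈ F, ∑ y ∈ F, s x * s y * g x y := by
      rw [Finset.sum_div]
      refine Finset.sum_congr rfl fun x _ => ?_
      rw [Finset.sum_div]
      refine Finset.sum_congr rfl fun y _ => ?_
      simp only [hgd]
      ring
    rw [add_div, sub_div, mul_div_assoc, e1, e2] at h7
    exact h7
  have h8 : ∑ x ∈ F, ∑ y ∈ F, s x * s y * g x y ≤ ∑ x ∈ F, s x ^ 2 + θ * ∑ x ∈ F, s x ^ 2 := by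
    have e1 : ∑ x ∈ F, ∑ y ∈ F, s x * s y * g x y =
        ∑ x ∈ F, s x ^ 2 + ∑ x ∈ F, ∑ y ∈ F, s x * s y * (g x y - (if x = y then 1 else 0)) := by
      rw [← Finset.sum_add_distrib]
      refine Finset.sum_congr rfl fun x hx => ?_
      have : ∑ y ∈ F, s x * s y * (if x = y then (1 : ℝ) else 0) = s x ^ 2 := by
        simp only [mul_ite, mul_one, mul_zero]
        rw [Finset.sum_ite_eq F x (fun y => s x * s y), if_pos hx]
        ring
      rw [← this, ← Finset.sum_add_distrib]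
      refine Finset.sum_congr rfl fun y _ => ?_
      ring
    rw [e1]
    have e2 : ∑ x ∈ F, ∑ y ∈ F, s x * s y * (g x y - (if x = y then 1 else 0)) ≤
        ∑ x ∈ F, ∑ y ∈ F, (s x ^ 2 + s y ^ 2) / 2 * (θ / (m + 1)) := by
      refine Finset.sum_le_sum fun x hx => Finset.sum_le_sum fun y hy => ?_
      refine (le_abs_self _).trans ?_
      rw [abs_mul]
      refine mul_le_mul ?_ (h2 x hx y hy) (abs_nonneg _) (by positivity)
      rw [abs_mul]
      nlinarith [sq_abs (s x), sq_abs (s y), sq_nonneg (|s x| - |s y|)]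
    have e3 : ∑ x ∈ F, ∑ y ∈ F, (s x ^ 2 + s y ^ 2) / 2 * (θ / (m + 1)) =
        m * (∑ x ∈ F, s x ^ 2) * (θ / (m + 1)) := by
      simp only [← Finset.sum_mul, ← Finset.sum_div]
      simp only [Finset.sum_add_distrib, Finset.sum_const, nsmul_eq_mul, ← Finset.mul_sum]
      rw [← hm]
      ring
    have e4 : m * (∑ x ∈ F, s x ^ 2) * (θ / (m + 1)) ≤ θ * ∑ x ∈ F, s x ^ 2 := by
      have h9 : 0 ≤ ∑ x ∈ F, s x ^ 2 := Finset.sum_nonneg fun x _ => sq_nonneg _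
      have h10 : m / (m + 1) ≤ 1 := by
        rw [div_le_one (by positivity)]
        linarith
      calc m * (∑ x ∈ F, s x ^ 2) * (θ / (m + 1)) = (m / (m + 1)) * (θ * ∑ x ∈ F, s x ^ 2) := by
            ring
        _ ≤ 1 * (θ * ∑ x ∈ F, s x ^ 2) := mul_le_mul_of_nonneg_right h10 (by positivity)
        _ = _ := one_mul _
    linarith
  have h9 : 0 ≤ ∑ x ∈ F, s x ^ 2 := Finset.sum_nonneg fun x _ => sq_nonneg _
  have h10 : ∑ x ∈ F, s x ^ 2 ≤ U + θ * ∑ x ∈ F, s x ^ 2 := by linarith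
  have h11 : ∑ x ∈ F, s x ^ 2 ≤ 2 * |K| := by
    have := le_abs_self K
    nlinarith
  have h12 : θ * ∑ x ∈ F, s x ^ 2 ≤ θ * (2 * |K|) := mul_le_mul_of_nonneg_left h11 hθ0.le
  show ∑ x ∈ F, s x ^ 2 ≤ U + η
  linarith

/-- the distance -/
theorem distance {X : Type} [DecidableEq X] (F : Finset X) {u : 𝔓 × ℕ → ℂ}
    {v : X → 𝔓 × ℕ → ℂ} (hu : SqS u) (hv : ∀ x ∈ F, SqS (v x)) {r : ℝ} {n : X → ℝ}
    (hr : Tendsto (fun ε => (cip ε u u).re / La ε) (𝓝[>] 0) (𝓝 r))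
    (hn : ∀ x ∈ F, Tendsto (fun ε => (cip ε u (v x)).re / La ε) (𝓝[>] 0) (𝓝 (n x)))
    (hG : ∀ x ∈ F, ∀ y ∈ F, Tendsto (fun ε => (cip ε (v x) (v y)).re / La ε) (𝓝[>] 0)
      (𝓝 (if x = y then 1 else 0))) :
    Tendsto (fun ε => (∑' q, om ε q * ‖u q - ∑ x ∈ F, (n x : ℂ) * v x q‖ ^ 2) / La ε) (𝓝[>] 0)
      (𝓝 (r - ∑ x ∈ F, n x ^ 2)) := by
  have h1 : Tendsto (fun ε => (cip ε u u).re / La ε - 2 * ∑ x ∈ F, n x * ((cip ε u (v x)).re / La ε)
      + ∑ x ∈ F, ∑ y ∈ F, n x * n y * ((cip ε (v x) (v y)).re / La ε)) (𝓝[>] 0)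
      (𝓝 (r - 2 * ∑ x ∈ F, n x * n x + ∑ x ∈ F, ∑ y ∈ F, n x * n y * (if x = y then 1 else 0))) := by
    refine (hr.sub ((tendsto_finsetSum _ fun x hx => (hn x hx).const_mul (n x)).const_mul 2)).add ?_
    exact tendsto_finsetSum _ fun x hx => tendsto_finsetSum _ fun y hy =>
      (hG x hx y hy).const_mul (n x * n y)
  have e1 : r - 2 * ∑ x ∈ F, n x * n x + ∑ x ∈ F, ∑ y ∈ F, n x * n y * (if x = y then 1 else 0) =
      r - ∑ x ∈ F, n x ^ 2 := by
    have : ∑ x ∈ F, ∑ y ∈ F, n x * n y * (if x = y then (1 : ℝ) else 0) = ∑ x ∈ F, n x ^ 2 := by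
      refine Finset.sum_congr rfl fun x hx => ?_
      simp only [mul_ite, mul_one, mul_zero]
      rw [Finset.sum_ite_eq F x (fun y => n x * n y), if_pos hx]
      ring
    rw [this]
    have h3 : ∑ x ∈ F, n x * n x = ∑ x ∈ F, n x ^ 2 := Finset.sum_congr rfl fun x _ => by ring
    rw [h3]
    ring
  rw [e1] at h1
  refine h1.congr' ?_
  filter_upwards [self_mem_nhdsWithin] with ε hε
  rw [(expand F n hu hv hε).tsum_eq, add_div, sub_div, mul_div_assoc, Finset.sum_div,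
    Finset.sum_div]
  congr 1
  · congr 2
    exact Finset.sum_congr rfl fun x _ => by ring
  · refine Finset.sum_congr rfl fun x _ => ?_
    rw [Finset.sum_div]
    exact Finset.sum_congr rfl fun y _ => by ring

end Run7.h736.NF
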