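import Pool.Agent.Run7.h736.NF.P2

/-! Families of cuspidal representations; mean squares. -/

set_option autoImplicit false
set_option linter.unusedSectionVars false

open Filter Topology Complex ComplexConjugate Finset

namespace Run7.h736.NF

open Run7.h736.AU (ps ten ps_zero ps_cons ps_add ps_smul ps_conj ten_zero ten_cons ps_ten ten_smul
  norm_ps_le factor_hasSum log_atTop div_log)

variable {𝔓 : Type} [Places 𝔓] [DecidableEq 𝔓]



/-- The known analytic properties of the Rankin-Selberg `L`-functions of a family `π_e`, `e ∈ ι`, of unitary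
cuspidal automorphic representations of the groups `GL(n_e)` over `ℚ`, any two of which are not twists of
each other by a power of `|det|`; for example the family of **all** unitary cuspidal automorphic
representations of all `GL(n)`, `n ≥ 1`, over `ℚ` with a central character that is trivial on the positive
real numbers.  The series of `log L(s, π_e × π_e~)` converges for `s > 1`, and `L(s, π_e × π_e~)` has a
simple pole at `s = 1`; `L(s, π_e × π_e'~)` has a finite nonzero limit at every other point `1 + iτ` of the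
line `Re s = 1` (Jacquet, Piatetski-Shapiro, Shalika; Moeglin, Waldspurger; Shahidi).  The finitely many
factors that are left out in `RS` have neither a zero nor a pole for `Re s ≥ 1`. -/
structure IsCuspidal {𝔓 : Type} [Places 𝔓] [DecidableEq 𝔓] {ι : Type} (π : ι → Sys 𝔓) : Prop where
  conv : ∀ e, SqS (π e).tr
  pole : ∀ e, ∃ a : ℂ, a ≠ 0 ∧
    Tendsto (fun ε : ℝ => (ε : ℂ) * RS (π e) (π e) (1 + ε)) (𝓝[>] 0) (𝓝 a)
  regular : ∀ (e e' : ι) (τ : ℝ), (e ≠ e' ∨ τ ≠ 0) → ∃ a : ℂ, a ≠ 0 ∧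
    Tendsto (fun ε : ℝ => RS (π e) (π e') (1 + ε + τ * I)) (𝓝[>] 0) (𝓝 a)

theorem norm_cpow_I (p : 𝔓) (τ : ℝ) : ‖((p : ℕ) : ℂ) ^ ((τ : ℂ) * I)‖ = 1 := by
  rw [Complex.norm_natCast_cpow_of_pos (Places.pos p)]
  simp

/-- the twist by `|det| ^ (-iτ)` -/
noncomputable def Sys.twist (S : Sys 𝔓) (τ : ℝ) : Sys 𝔓 where
  bad := S.bad
  rank := S.rank
  ev := fun p => (S.ev p).map fun z => ((p : ℕ) : ℂ) ^ ((τ : ℂ) * I) * z
  card := fun p hp => by rw [Multiset.card_map, S.card p hp]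
  bound := by
    intro p hp z hz
    obtain ⟨y, hy, rfl⟩ := Multiset.mem_map.1 hz
    rw [norm_mul, norm_cpow_I, one_mul]
    exact S.bound p hp y hy

theorem twist_tr (S : Sys 𝔓) (τ : ℝ) (q : 𝔓 × ℕ) :
    (S.twist τ).tr q = (((q.1 : ℕ) : ℂ) ^ ((τ : ℂ) * I)) ^ (q.2 + 1) * S.tr q := by
  unfold Sys.tr Sys.twist
  simp only
  split_ifs with h
  · simp
  · rw [ps_smul]

theorem twist_norm (S : Sys 𝔓) (τ : ℝ) (q : 𝔓 × ℕ) : ‖(S.twist τ).tr q‖ = ‖S.tr q‖ := by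
  rw [twist_tr, norm_mul, norm_pow, norm_cpow_I, one_pow, one_mul]

theorem twist_sqs {S : Sys 𝔓} (h : SqS S.tr) (τ : ℝ) : SqS (S.twist τ).tr := by
  intro ε hε
  refine (h ε hε).congr fun q => ?_
  rw [twist_norm]

theorem conj_cpow_I (p : 𝔓) (τ : ℝ) :
    conj (((p : ℕ) : ℂ) ^ ((τ : ℂ) * I)) = ((p : ℕ) : ℂ) ^ (-((τ : ℂ) * I)) := by
  have hp : ((p : ℕ) : ℂ) ≠ 0 := by exact_mod_cast (Places.ne_zero p)
  rw [Complex.cpow_def_of_ne_zero hp, Complex.cpow_def_of_ne_zero hp, ← Complex.exp_conj,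
    map_mul, map_mul, Complex.conj_I, Complex.conj_ofReal, ← Complex.natCast_log,
    Complex.conj_ofReal]
  congr 1
  ring

theorem RS_twist (S T : Sys 𝔓) (τ τ' ε : ℝ) :
    RS (S.twist τ) (T.twist τ') (1 + ε) = RS S T (1 + ε + ((τ' - τ : ℝ) : ℂ) * I) := by
  unfold RS
  refine tprod_congr fun p => ?_
  have hb : (S.twist τ).bad ∪ (T.twist τ').bad = S.bad ∪ T.bad := rfl
  rw [hb]
  split_ifs with h
  · rfl
  unfold fac Sys.twist
  simp only
  have e1 : ((T.ev p).map fun z => ((p : ℕ) : ℂ) ^ ((τ' : ℂ) * I) * z).map conj =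
      ((T.ev p).map conj).map fun z => ((p : ℕ) : ℂ) ^ (-((τ' : ℂ) * I)) * z := by
    rw [Multiset.map_map, Multiset.map_map]
    refine Multiset.map_congr rfl fun z _ => ?_
    simp only [Function.comp_apply, map_mul, conj_cpow_I]
  rw [e1, ten_smul, Multiset.map_map]
  congr 2
  refine Multiset.map_congr rfl fun z _ => ?_
  have hp : ((p : ℕ) : ℂ) ≠ 0 := by exact_mod_cast (Places.ne_zero p)
  simp only [Function.comp_apply]
  have e2 : ((p : ℕ) : ℂ) ^ (-(1 + (ε : ℂ) + ((τ' - τ : ℝ) : ℂ) * I)) =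
      ((p : ℕ) : ℂ) ^ ((τ : ℂ) * I) * ((p : ℕ) : ℂ) ^ (-((τ' : ℂ) * I)) *
        ((p : ℕ) : ℂ) ^ (-(1 + (ε : ℂ))) := by
    rw [← Complex.cpow_add _ _ hp, ← Complex.cpow_add _ _ hp]
    congr 1
    push_cast
    ring
  rw [e2]
  ring

section
variable {ι : Type} {π : ι → Sys 𝔓}

/-- the vector of the twist -/
noncomputable def vec (π : ι → Sys 𝔓) (x : ι × ℝ) : 𝔓 × ℕ → ℂ := ((π x.1).twist x.2).tr

theorem vec_sqs (h : IsCuspidal π) (x : ι × ℝ) : SqS (vec π x) := twist_sqs (h.conv x.1) x.2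

/-- **The Gram matrix.** -/
theorem gram [DecidableEq (ι × ℝ)] (h : IsCuspidal π) (x y : ι × ℝ) :
    Tendsto (fun ε => (cip ε (vec π x) (vec π y)).re / La ε) (𝓝[>] 0)
      (𝓝 (if x = y then 1 else 0)) := by
  have hlog : ∀ ε : ℝ, 0 < ε → (cip ε (vec π x) (vec π y)).re =
      Real.log ‖RS (π x.1) (π y.1) (1 + ε + ((y.2 - x.2 : ℝ) : ℂ) * I)‖ := by
    intro ε hε
    unfold vec
    rw [← log_RS (twist_sqs (h.conv x.1) x.2) (twist_sqs (h.conv y.1) y.2) hε, RS_twist]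
  by_cases hxy : x = y
  · subst hxy
    rw [if_pos rfl]
    obtain ⟨a, ha, h1⟩ := h.pole x.1
    have h2 := div_log (h1.norm.log (norm_ne_zero_iff.2 ha))
    have h3 := h2.add_const 1
    rw [zero_add] at h3
    refine h3.congr' ?_
    have hL : ∀ᶠ ε : ℝ in 𝓝[>] 0, 0 < Real.log (1 / ε) := log_atTop.eventually_gt_atTop 0
    have hne : ∀ᶠ ε : ℝ in 𝓝[>] 0, (ε : ℂ) * RS (π x.1) (π x.1) (1 + ε) ≠ 0 :=
      h1.eventually_ne ha
    filter_upwards [self_mem_nhdsWithin, hL, hne] with ε h4 h5 h6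
    have hε : 0 < ε := h4
    rw [hlog ε hε]
    have e1 : (1 : ℂ) + ε + ((x.2 - x.2 : ℝ) : ℂ) * I = 1 + ε := by simp
    rw [e1, norm_mul, Real.log_mul (norm_ne_zero_iff.2 (left_ne_zero_of_mul h6))
      (norm_ne_zero_iff.2 (right_ne_zero_of_mul h6)), Complex.norm_real, Real.norm_eq_abs,
      abs_of_pos hε]
    unfold La
    have e2 : Real.log (1 / ε) = - Real.log ε := by rw [one_div, Real.log_inv]
    rw [e2] at h5 ⊢
    have h7 : Real.log ε ≠ 0 := fun h8 => by rw [h8] at h5; simp at h5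
    field_simp
    ring
  · rw [if_neg hxy]
    have h0 : x.1 ≠ y.1 ∨ y.2 - x.2 ≠ 0 := by
      by_contra hc
      rw [not_or, not_not, not_not] at hc
      exact hxy (Prod.ext hc.1 (by linarith [hc.2]))
    obtain ⟨a, ha, h1⟩ := h.regular x.1 y.1 (y.2 - x.2) h0
    have h2 := div_log (h1.norm.log (norm_ne_zero_iff.2 ha))
    refine h2.congr' ?_
    filter_upwards [self_mem_nhdsWithin] with ε hε
    rw [hlog ε hε]
    rfl

end

/-- The mean square of `f` over the primes is at most `K`: for all `η > 0` and all small `ε > 0` the series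
`∑_p |f(p)|² p^{-1-ε}` converges and is at most `(K + η) log (1 / ε)`. -/
def MeanSqLE (f : 𝔓 → ℂ) (K : ℝ) : Prop :=
  ∀ η : ℝ, 0 < η → ∀ᶠ ε : ℝ in 𝓝[>] 0,
    Summable (fun p : 𝔓 => ((p : ℕ) : ℝ) ^ (-(1 + ε)) * ‖f p‖ ^ 2) ∧
    ∑' p : 𝔓, ((p : ℕ) : ℝ) ^ (-(1 + ε)) * ‖f p‖ ^ 2 ≤ (K + η) * Real.log (1 / ε)

/-- the terms with prime powers converge at the edge -/
def Hi (u : 𝔓 × ℕ → ℂ) : Prop :=
  Summable fun q : 𝔓 × ℕ => om 0 (q.1, q.2 + 1) * ‖u (q.1, q.2 + 1)‖ ^ 2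

theorem om_mono {ε : ℝ} (hε : 0 ≤ ε) (q : 𝔓 × ℕ) : om ε q ≤ om 0 q := by
  have hp : (1 : ℝ) ≤ ((q.1 : ℕ) : ℝ) := by exact_mod_cast (Places.one_lt q.1).le
  unfold om
  have h1 : ((q.1 : ℕ) : ℝ) ^ (-((q.2 + 1 : ℝ) * (1 + ε))) ≤
      ((q.1 : ℕ) : ℝ) ^ (-((q.2 + 1 : ℝ) * (1 + 0))) := by
    refine Real.rpow_le_rpow_of_exponent_le hp ?_
    have : (0 : ℝ) ≤ (q.2 : ℝ) := Nat.cast_nonneg _
    nlinarith
  exact div_le_div_of_nonneg_right h1 (by positivity)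

theorem om_zero (ε : ℝ) (p : 𝔓) : om ε (p, 0) = ((p : ℕ) : ℝ) ^ (-(1 + ε)) := by
  unfold om
  simp

theorem om_le_one {ε : ℝ} (hε : 0 ≤ ε) (q : 𝔓 × ℕ) : om ε q ≤ 1 := by
  have hp : (1 : ℝ) ≤ ((q.1 : ℕ) : ℝ) := by exact_mod_cast (Places.one_lt q.1).le
  have h0 : (0 : ℝ) ≤ (q.2 : ℝ) := Nat.cast_nonneg _
  unfold om
  have h1 : ((q.1 : ℕ) : ℝ) ^ (-((q.2 + 1 : ℝ) * (1 + ε))) ≤ 1 :=
    Real.rpow_le_one_of_one_le_of_nonpos hp (by nlinarith)
  rw [div_le_one (by positivity)]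
  linarith

theorem hi_bdd {u : 𝔓 × ℕ → ℂ} {A : ℝ} (h : ∀ q, ‖u q‖ ≤ A) : Hi u := by
  have hsum : Summable fun q : 𝔓 × ℕ => om 0 (q.1, q.2 + 1) := by
    obtain ⟨C, hC, h1⟩ := sum_high (𝔓 := 𝔓)
    refine summable_of_sum_le (c := C) (fun q => (om_pos 0 _).le) fun s => ?_
    have h2 : Tendsto (fun ε : ℝ => ∑ q ∈ s, om ε (q.1, q.2 + 1)) (𝓝[>] 0)
        (𝓝 (∑ q ∈ s, om 0 (q.1, q.2 + 1))) := by
      refine tendsto_finsetSum _ fun q _ => ?_
      have hp : (0 : ℝ) < ((q.1 : ℕ) : ℝ) := by exact_mod_cast (Places.pos q.1)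
      have : Continuous fun ε : ℝ => om ε (q.1, q.2 + 1) := by
        unfold om
        refine Continuous.div_const ?_ _
        refine Continuous.rpow continuous_const (by fun_prop) fun ε => Or.inl hp.ne'
      exact (this.tendsto 0).mono_left nhdsWithin_le_nhds
    refine le_of_tendsto h2 ?_
    filter_upwards [self_mem_nhdsWithin] with ε hε
    obtain ⟨h3, h4⟩ := h1 ε hε
    exact (h3.sum_le_tsum s fun q _ => (om_pos ε _).le).trans h4
  refine Summable.of_nonneg_of_le (fun q => by have := (om_pos 0 (q.1, q.2 + 1)).le; positivity)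
    (fun q => ?_) (hsum.mul_right (A ^ 2))
  exact mul_le_mul_of_nonneg_left (pow_le_pow_left₀ (norm_nonneg _) (h _) 2) (om_pos 0 _).le

theorem Hi.smul {u : 𝔓 × ℕ → ℂ} (hu : Hi u) (c : ℂ) : Hi fun q => c * u q := by
  refine (hu.mul_left (‖c‖ ^ 2)).congr fun q => ?_
  rw [norm_mul]
  ring

theorem Hi.add {u v : 𝔓 × ℕ → ℂ} (hu : Hi u) (hv : Hi v) : Hi fun q => u q + v q := by
  refine Summable.of_nonneg_of_le (fun q => by have := (om_pos 0 (q.1, q.2 + 1)).le; positivity)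
    (fun q => ?_) ((Summable.add hu hv).mul_left 2)
  have h1 := norm_add_le (u (q.1, q.2 + 1)) (v (q.1, q.2 + 1))
  have h2 := om_pos 0 (q.1, q.2 + 1)
  have h3 : ‖u (q.1, q.2 + 1) + v (q.1, q.2 + 1)‖ ^ 2 ≤
      2 * (‖u (q.1, q.2 + 1)‖ ^ 2 + ‖v (q.1, q.2 + 1)‖ ^ 2) := by
    nlinarith [norm_nonneg (u (q.1, q.2 + 1) + v (q.1, q.2 + 1)), norm_nonneg (u (q.1, q.2 + 1)),
      norm_nonneg (v (q.1, q.2 + 1)), sq_nonneg (‖u (q.1, q.2 + 1)‖ - ‖v (q.1, q.2 + 1)‖)]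
  nlinarith

theorem Hi.sum {X : Type} (F : Finset X) {v : X → 𝔓 × ℕ → ℂ} (hv : ∀ x ∈ F, Hi (v x)) :
    Hi fun q => ∑ x ∈ F, v x q := by
  classical
  induction F using Finset.induction_on with
  | empty =>
    unfold Hi
    simp
  | insert a F ha ih =>
    have h1 := (hv a (Finset.mem_insert_self _ _)).add
      (ih fun x hx => hv x (Finset.mem_insert_of_mem hx))
    refine Summable.congr h1 fun q => ?_
    simp only [Finset.sum_insert ha]

/-- the first powers and the others -/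
theorem split {f : 𝔓 × ℕ → ℝ} (hf : Summable f) :
    Summable (fun p : 𝔓 => f (p, 0)) ∧
    Summable (fun q : 𝔓 × ℕ => f (q.1, q.2 + 1)) ∧
    ∑' q, f q = ∑' p : 𝔓, f (p, 0) + ∑' q : 𝔓 × ℕ, f (q.1, q.2 + 1) := by
  classical
  have i0 : Function.Injective fun p : 𝔓 => (p, 0) := fun a b h => (Prod.mk.inj h).1
  have i1 : Function.Injective fun q : 𝔓 × ℕ => (q.1, q.2 + 1) := fun a b h => by
    have h1 := (Prod.mk.inj h).1
    have h2 := (Prod.mk.inj h).2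
    exact Prod.ext h1 (by omega)
  have s0 : Summable fun p : 𝔓 => f (p, 0) := hf.comp_injective i0
  have s1 : Summable fun q : 𝔓 × ℕ => f (q.1, q.2 + 1) := hf.comp_injective i1
  refine ⟨s0, s1, ?_⟩
  set f0 : 𝔓 × ℕ → ℝ := fun q => if q.2 = 0 then f q else 0 with hf0
  set f1 : 𝔓 × ℕ → ℝ := fun q => if q.2 = 0 then 0 else f q with hf1
  have e0 : ∑' p : 𝔓, f0 (p, 0) = ∑' q, f0 q := by
    refine i0.tsum_eq (f := f0) fun q hq => ?_
    have : q.2 = 0 := by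
      by_contra h
      exact hq (by simp [hf0, h])
    exact ⟨q.1, Prod.ext rfl this.symm⟩
  have e1 : ∑' q : 𝔓 × ℕ, f1 (q.1, q.2 + 1) = ∑' q, f1 q := by
    refine i1.tsum_eq (f := f1) fun q hq => ?_
    have : q.2 ≠ 0 := by
      intro h
      exact hq (by simp [hf1, h])
    exact ⟨(q.1, q.2 - 1), Prod.ext rfl (by simp only; omega)⟩
  have t0 : Summable f0 := by
    refine Summable.of_norm_bounded hf.norm fun q => ?_
    simp only [hf0]
    split_ifs <;> simp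
  have t1 : Summable f1 := by
    refine Summable.of_norm_bounded hf.norm fun q => ?_
    simp only [hf1]
    split_ifs <;> simp
  have e2 : ∑' q, f q = ∑' q, f0 q + ∑' q, f1 q := by
    rw [← t0.tsum_add t1]
    refine tsum_congr fun q => ?_
    simp only [hf0, hf1]
    split_ifs <;> simp
  rw [e2, ← e0, ← e1]
  simp [hf0, hf1]

/-- **From the mean square over the primes to the norm.** -/
theorem norm_of_mean {u : 𝔓 × ℕ → ℂ} (hu : SqS u) (hi : Hi u) {f : 𝔓 → ℂ}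
    (F : Finset 𝔓) (hf : ∀ p, p ∉ F → u (p, 0) = f p) {K : ℝ} (hK : MeanSqLE f K)
    {η : ℝ} (hη : 0 < η) : ∀ᶠ ε : ℝ in 𝓝[>] 0, (cip ε u u).re / La ε ≤ K + η := by
  classical
  set C : ℝ := (∑' q : 𝔓 × ℕ, om 0 (q.1, q.2 + 1) * ‖u (q.1, q.2 + 1)‖ ^ 2) +
    ∑ p ∈ F, ‖u (p, 0)‖ ^ 2 with hC
  have hlim : Tendsto (fun ε => C / La ε) (𝓝[>] 0) (𝓝 0) := div_log tendsto_const_nhds
  filter_upwards [hK (η / 2) (by positivity), hlim.eventually (gt_mem_nhds (half_pos hη)),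
    self_mem_nhdsWithin, log_atTop.eventually_gt_atTop 0] with ε h1 h2 h3 h4
  have hε : 0 < ε := h3
  have hL : 0 < La ε := h4
  have hs := self_hasSum hu hε
  obtain ⟨a1, a2, a3⟩ := split hs.summable
  rw [← hs.tsum_eq, a3]
  have b1 : ∑' q : 𝔓 × ℕ, om ε (q.1, q.2 + 1) * ‖u (q.1, q.2 + 1)‖ ^ 2 ≤
      ∑' q : 𝔓 × ℕ, om 0 (q.1, q.2 + 1) * ‖u (q.1, q.2 + 1)‖ ^ 2 :=
    a2.tsum_le_tsum (fun q => mul_le_mul_of_nonneg_right (om_mono hε.le _) (by positivity)) hi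
  have b2 : ∑' p : 𝔓, om ε (p, 0) * ‖u (p, 0)‖ ^ 2 ≤
      ∑' p : 𝔓, ((p : ℕ) : ℝ) ^ (-(1 + ε)) * ‖f p‖ ^ 2 + ∑ p ∈ F, ‖u (p, 0)‖ ^ 2 := by
    have c1 : HasSum (fun p => if p ∈ F then ‖u (p, 0)‖ ^ 2 else 0) (∑ p ∈ F, ‖u (p, 0)‖ ^ 2) := by
      have h0 : HasSum (fun p => if p ∈ F then ‖u (p, 0)‖ ^ 2 else 0)
          (∑ p ∈ F, if p ∈ F then ‖u (p, 0)‖ ^ 2 else 0) :=
        hasSum_sum_of_ne_finset_zero (fun p hp => by simp [hp])
      rwa [Finset.sum_congr rfl (fun p hp => by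
        show (if p ∈ F then ‖u (p, 0)‖ ^ 2 else 0) = ‖u (p, 0)‖ ^ 2
        simp [hp])] at h0
    have c2 := h1.1.hasSum.add c1
    rw [← c2.tsum_eq]
    refine a1.tsum_le_tsum (fun p => ?_) c2.summable
    rw [om_zero]
    have c3 : (0 : ℝ) ≤ ((p : ℕ) : ℝ) ^ (-(1 + ε)) := by positivity
    split_ifs with hp
    · have c4 := om_le_one hε.le (p, 0)
      rw [om_zero] at c4
      have c5 : ((p : ℕ) : ℝ) ^ (-(1 + ε)) * ‖u (p, 0)‖ ^ 2 ≤ 1 * ‖u (p, 0)‖ ^ 2 :=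
        mul_le_mul_of_nonneg_right c4 (by positivity)
      have c6 : 0 ≤ ((p : ℕ) : ℝ) ^ (-(1 + ε)) * ‖f p‖ ^ 2 := by positivity
      linarith
    · rw [hf p hp, add_zero]
  rw [div_le_iff₀ hL]
  have h5 : C ≤ η / 2 * La ε := by
    rw [div_lt_iff₀ hL] at h2
    exact h2.le
  have h6 := h1.2
  have h7 : Real.log (1 / ε) = La ε := rfl
  rw [h7] at h6
  rw [hC] at h5
  nlinarith

/-- **From the norm to the mean square over the primes.** -/
theorem mean_of_norm {u : 𝔓 × ℕ → ℂ} (hu : SqS u) {f : 𝔓 → ℂ}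
    (F : Finset 𝔓) (hf : ∀ p, p ∉ F → u (p, 0) = f p) {K : ℝ}
    (hK : Tendsto (fun ε => (∑' q, om ε q * ‖u q‖ ^ 2) / La ε) (𝓝[>] 0) (𝓝 K)) :
    MeanSqLE f K := by
  classical
  intro η hη
  set C : ℝ := ∑ p ∈ F, ‖f p‖ ^ 2 with hC
  have hlim : Tendsto (fun ε => C / La ε) (𝓝[>] 0) (𝓝 0) := div_log tendsto_const_nhds
  filter_upwards [hK.eventually (gt_mem_nhds (show K < K + η / 2 by linarith)),
    hlim.eventually (gt_mem_nhds (half_pos hη)),
    self_mem_nhdsWithin, log_atTop.eventually_gt_atTop 0] with ε h1 h2 h3 h4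
  have hε : 0 < ε := h3
  have hL : 0 < La ε := h4
  have hs := self_hasSum hu hε
  obtain ⟨a1, a2, a3⟩ := split hs.summable
  have c1 : HasSum (fun p => if p ∈ F then ‖f p‖ ^ 2 else 0) C := by
    have h0 : HasSum (fun p => if p ∈ F then ‖f p‖ ^ 2 else 0)
        (∑ p ∈ F, if p ∈ F then ‖f p‖ ^ 2 else 0) :=
      hasSum_sum_of_ne_finset_zero (fun p hp => by simp [hp])
    rwa [Finset.sum_congr rfl (fun p hp => by
      show (if p ∈ F then ‖f p‖ ^ 2 else 0) = ‖f p‖ ^ 2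
      simp [hp])] at h0
  have c2 := a1.hasSum.add c1
  have hle : ∀ p : 𝔓, ((p : ℕ) : ℝ) ^ (-(1 + ε)) * ‖f p‖ ^ 2 ≤
      om ε (p, 0) * ‖u (p, 0)‖ ^ 2 + (if p ∈ F then ‖f p‖ ^ 2 else 0) := by
    intro p
    rw [om_zero]
    have c3 : (0 : ℝ) ≤ ((p : ℕ) : ℝ) ^ (-(1 + ε)) := by positivity
    split_ifs with hp
    · have c4 := om_le_one hε.le (p, 0)
      rw [om_zero] at c4
      have c5 : ((p : ℕ) : ℝ) ^ (-(1 + ε)) * ‖f p‖ ^ 2 ≤ 1 * ‖f p‖ ^ 2 :=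
        mul_le_mul_of_nonneg_right c4 (by positivity)
      have c6 : 0 ≤ ((p : ℕ) : ℝ) ^ (-(1 + ε)) * ‖u (p, 0)‖ ^ 2 := by positivity
      linarith
    · rw [hf p hp, add_zero]
  have hsum : Summable (fun p : 𝔓 => ((p : ℕ) : ℝ) ^ (-(1 + ε)) * ‖f p‖ ^ 2) :=
    Summable.of_nonneg_of_le (fun p => by positivity) hle c2.summable
  refine ⟨hsum, ?_⟩
  have d1 := hsum.tsum_le_tsum hle c2.summable
  rw [c2.tsum_eq] at d1
  have d2 : 0 ≤ ∑' q : 𝔓 × ℕ, om ε (q.1, q.2 + 1) * ‖u (q.1, q.2 + 1)‖ ^ 2 :=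
    tsum_nonneg fun q => by have := (om_pos ε (q.1, q.2 + 1)).le; positivity
  rw [div_lt_iff₀ hL] at h1 h2
  have h7 : Real.log (1 / ε) = La ε := rfl
  rw [h7]
  rw [a3] at h1
  nlinarith

end Run7.h736.NF
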