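import Pool.Agent.Run7.h736.NF.P3

/-! Families of eigenvalues near an isobaric sum. -/

set_option autoImplicit false
set_option linter.unusedSectionVars false

open Filter Topology Complex ComplexConjugate Finset

namespace Run7.h736.NF

open Run7.h736.AU (ps ten ps_zero ps_cons ps_add ps_smul ps_conj ten_zero ten_cons ps_ten ten_smul
  norm_ps_le factor_hasSum log_atTop div_log)

variable {𝔓 : Type} [Places 𝔓] [DecidableEq 𝔓]

/-- The trace at `p` of the Satake parameters of `π_e ⊗ |det|^(-iτ)`, `x = (e, τ)`. -/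
noncomputable def atr {ι : Type} (π : ι → Sys 𝔓) (x : ι × ℝ) (p : 𝔓) : ℂ :=
  ((π x.1).ev p).sum * ((p : ℕ) : ℂ) ^ ((x.2 : ℂ) * I)

theorem ps_one (s : Multiset ℂ) : ps s 1 = s.sum := by
  unfold ps
  simp

section
variable {ι : Type} {π : ι → Sys 𝔓}

theorem vec_atr {x : ι × ℝ} {p : 𝔓} (hp : p ∉ (π x.1).bad) :
    vec π x (p, 0) = atr π x p := by
  unfold vec atr
  rw [twist_tr]
  unfold Sys.tr
  simp only
  rw [if_neg hp, zero_add, pow_one, ps_one, mul_comm]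

theorem vec_hi {x : ι × ℝ} (h : Hi (π x.1).tr) : Hi (vec π x) := by
  refine Summable.congr h fun q => ?_
  unfold vec
  rw [twist_norm]

theorem perturb {X : Type} (S : Finset X) {a b : X → ℝ → ℝ} {W : ℝ → ℝ} {K : ℝ}
    (hb : ∀ η : ℝ, 0 < η → ∀ᶠ ε : ℝ in 𝓝[>] 0, ∑ x ∈ S, b x ε ^ 2 ≤ W ε + η)
    (hW : ∀ᶠ ε : ℝ in 𝓝[>] 0, W ε ≤ K)
    (hab : ∀ x ∈ S, Tendsto (fun ε => a x ε - b x ε) (𝓝[>] 0) (𝓝 0)) {η : ℝ} (hη : 0 < η) :
    ∀ᶠ ε : ℝ in 𝓝[>] 0, ∑ x ∈ S, a x ε ^ 2 ≤ W ε + η := by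
  set R : ℝ := Real.sqrt (|K| + 1) with hR
  have hR2 : R ^ 2 = |K| + 1 := Real.sq_sqrt (by positivity)
  have hR0 : 0 ≤ R := Real.sqrt_nonneg _
  have hD : Tendsto (fun ε => ∑ x ∈ S, (2 * R * |a x ε - b x ε| + (a x ε - b x ε) ^ 2)) (𝓝[>] 0)
      (𝓝 (∑ x ∈ S, (2 * R * |(0 : ℝ)| + (0 : ℝ) ^ 2))) :=
    tendsto_finsetSum _ fun x hx => ((hab x hx).abs.const_mul (2 * R)).add ((hab x hx).pow 2)
  have e0 : ∑ x ∈ S, (2 * R * |(0 : ℝ)| + (0 : ℝ) ^ 2) = 0 := by simp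
  rw [e0] at hD
  filter_upwards [hb (η / 2) (half_pos hη), hb 1 one_pos, hW,
    hD.eventually (gt_mem_nhds (half_pos hη))] with ε h1 h2 h3 h4
  have h5 : ∀ x ∈ S, |b x ε| ≤ R := by
    intro x hx
    have h6 : b x ε ^ 2 ≤ ∑ x ∈ S, b x ε ^ 2 :=
      Finset.single_le_sum (f := fun x => b x ε ^ 2) (fun y _ => sq_nonneg _) hx
    have h7 : b x ε ^ 2 ≤ R ^ 2 := by
      rw [hR2]
      have := le_abs_self K
      linarith
    exact abs_le_of_sq_le_sq h7 hR0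
  have h6 : ∑ x ∈ S, a x ε ^ 2 ≤ ∑ x ∈ S, b x ε ^ 2 +
      ∑ x ∈ S, (2 * R * |a x ε - b x ε| + (a x ε - b x ε) ^ 2) := by
    rw [← Finset.sum_add_distrib]
    refine Finset.sum_le_sum fun x hx => ?_
    have h7 := h5 x hx
    have h8 : b x ε * (a x ε - b x ε) ≤ R * |a x ε - b x ε| := by
      refine (le_abs_self _).trans ?_
      rw [abs_mul]
      exact mul_le_mul_of_nonneg_right h7 (abs_nonneg _)
    nlinarith
  linarith

/-- **The general inequality.** -/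
theorem core (h : IsCuspidal π) {u : 𝔓 × ℕ → ℂ} (hu : SqS u) {K : ℝ}
    (hK : ∀ η : ℝ, 0 < η → ∀ᶠ ε : ℝ in 𝓝[>] 0, (cip ε u u).re / La ε ≤ K + η)
    (S : Finset (ι × ℝ)) {a : ι × ℝ → ℝ → ℝ}
    (ha : ∀ x ∈ S, Tendsto (fun ε => a x ε - (cip ε u (vec π x)).re / La ε) (𝓝[>] 0) (𝓝 0))
    {η : ℝ} (hη : 0 < η) :
    ∀ᶠ ε : ℝ in 𝓝[>] 0, ∑ x ∈ S, a x ε ^ 2 ≤ (cip ε u u).re / La ε + η := by
  classical
  exact perturb S (fun η hη => bessel S hu (fun x _ => vec_sqs h x) (hK 1 one_pos)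
    (fun x _ y _ => gram h x y) hη) (hK 1 one_pos) ha hη

end

/-- `r` is the order of the `L`-function of `S × T~` at `1 + iτ`, the factors at the exceptional primes
of `S` and `T` being left out. -/
def RSOrder (S T : Sys 𝔓) (τ : ℝ) (r : ℤ) : Prop :=
  ∃ a : ℂ, a ≠ 0 ∧
    Tendsto (fun ε : ℝ => (ε : ℂ) ^ (-r) * RS S T (1 + ε + τ * I)) (𝓝[>] 0) (𝓝 a)

theorem order_limit {f : ℝ → ℂ} {r : ℤ} {a : ℂ} (ha : a ≠ 0)
    (h1 : Tendsto (fun ε : ℝ => (ε : ℂ) ^ (-r) * f ε) (𝓝[>] 0) (𝓝 a)) :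
    Tendsto (fun ε : ℝ => Real.log ‖f ε‖ / La ε) (𝓝[>] 0) (𝓝 (-r)) := by
  have h2 := div_log (h1.norm.log (norm_ne_zero_iff.2 ha))
  have h3 := h2.add_const (-(r : ℝ))
  rw [zero_add] at h3
  refine h3.congr' ?_
  have hL : ∀ᶠ ε : ℝ in 𝓝[>] 0, 0 < Real.log (1 / ε) := log_atTop.eventually_gt_atTop 0
  have hne : ∀ᶠ ε : ℝ in 𝓝[>] 0, (ε : ℂ) ^ (-r) * f ε ≠ 0 := h1.eventually_ne ha
  filter_upwards [self_mem_nhdsWithin, hL, hne] with ε h4 h5 h6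
  have hε : 0 < ε := h4
  unfold La
  rw [norm_mul, Real.log_mul (norm_ne_zero_iff.2 (left_ne_zero_of_mul h6))
      (norm_ne_zero_iff.2 (right_ne_zero_of_mul h6)), norm_zpow, Complex.norm_real,
      Real.norm_eq_abs, abs_of_pos hε, Real.log_zpow]
  have e2 : Real.log (1 / ε) = - Real.log ε := by rw [one_div, Real.log_inv]
  rw [e2] at h5 ⊢
  have h7 : Real.log ε ≠ 0 := fun h8 => by rw [h8] at h5; simp at h5
  push_cast
  field_simp
  ring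

theorem RS_shift (S T : Sys 𝔓) (τ ε : ℝ) :
    RS S (T.twist τ) (1 + ε) = RS S T (1 + ε + τ * I) := by
  unfold RS
  refine tprod_congr fun p => ?_
  have hb : S.bad ∪ (T.twist τ).bad = S.bad ∪ T.bad := rfl
  rw [hb]
  split_ifs with h
  · rfl
  unfold fac Sys.twist
  simp only
  have e1 : ((T.ev p).map fun z => ((p : ℕ) : ℂ) ^ ((τ : ℂ) * I) * z).map conj =
      ((T.ev p).map conj).map fun z => ((p : ℕ) : ℂ) ^ (-((τ : ℂ) * I)) * z := by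
    rw [Multiset.map_map, Multiset.map_map]
    refine Multiset.map_congr rfl fun z _ => ?_
    simp only [Function.comp_apply, map_mul, conj_cpow_I]
  have e0 : S.ev p = (S.ev p).map fun z => 1 * z := by simp
  rw [e1]
  conv_lhs => rw [e0]
  rw [ten_smul, Multiset.map_map]
  congr 2
  refine Multiset.map_congr rfl fun z _ => ?_
  have hp : ((p : ℕ) : ℂ) ≠ 0 := by exact_mod_cast (Places.ne_zero p)
  simp only [Function.comp_apply]
  have e2 : ((p : ℕ) : ℂ) ^ (-(1 + (ε : ℂ) + (τ : ℂ) * I)) =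
      ((p : ℕ) : ℂ) ^ (-((τ : ℂ) * I)) * ((p : ℕ) : ℂ) ^ (-(1 + (ε : ℂ))) := by
    rw [← Complex.cpow_add _ _ hp]
    congr 1
    ring
  rw [e2]
  ring

theorem rs_limit {S T : Sys 𝔓} (hS : SqS S.tr) (hT : SqS T.tr) {τ : ℝ} {r : ℤ}
    (h : RSOrder S T τ r) :
    Tendsto (fun ε => (cip ε S.tr (T.twist τ).tr).re / La ε) (𝓝[>] 0) (𝓝 (-r)) := by
  obtain ⟨a, ha, h1⟩ := h
  refine (order_limit ha h1).congr' ?_
  filter_upwards [self_mem_nhdsWithin] with ε h2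
  have hε : 0 < ε := h2
  rw [← RS_shift, log_RS hS (twist_sqs hT τ) hε]

theorem twist_zero_tr (T : Sys 𝔓) : (T.twist 0).tr = T.tr := by
  funext q
  rw [twist_tr]
  simp

section
variable {ι : Type} {π : ι → Sys 𝔓}

/-- the difference -/
noncomputable def dv (π : ι → Sys 𝔓) (v : 𝔓 × ℕ → ℂ) (T : Finset (ι × ℝ)) (n : ι × ℝ → ℤ)
    (q : 𝔓 × ℕ) : ℂ := v q - ∑ x ∈ T, ((n x : ℝ) : ℂ) * vec π x q

theorem dv_eq (v : 𝔓 × ℕ → ℂ) (T : Finset (ι × ℝ)) (n : ι × ℝ → ℤ) :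
    dv π v T n = fun q => v q + ∑ x ∈ T, (-(n x : ℂ)) * vec π x q := by
  funext q
  unfold dv
  rw [sub_eq_add_neg, ← Finset.sum_neg_distrib]
  congr 1
  refine Finset.sum_congr rfl fun x _ => ?_
  push_cast
  ring

theorem dv_sqs (h : IsCuspidal π) {v : 𝔓 × ℕ → ℂ} (hv : SqS v) (T : Finset (ι × ℝ))
    (n : ι × ℝ → ℤ) : SqS (dv π v T n) := by
  rw [dv_eq]
  exact hv.add (SqS.sum T fun x _ => (vec_sqs h x).smul _)

theorem dv_val {v : 𝔓 × ℕ → ℂ} (T : Finset (ι × ℝ)) (n : ι × ℝ → ℤ)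
    {g : 𝔓 → ℂ} {F : Finset 𝔓} (hg : ∀ p, p ∉ F → v (p, 0) = g p) {p : 𝔓}
    (hp : p ∉ F ∪ T.biUnion fun x => (π x.1).bad) :
    dv π v T n (p, 0) = g p - ∑ x ∈ T, (n x : ℂ) * atr π x p := by
  rw [Finset.mem_union, not_or, Finset.mem_biUnion] at hp
  unfold dv
  rw [hg p hp.1]
  congr 1
  refine Finset.sum_congr rfl fun x hx => ?_
  rw [vec_atr fun h3 => hp.2 ⟨x, hx, h3⟩]
  push_cast
  ring

theorem dv_norm (h : IsCuspidal π) {v : 𝔓 × ℕ → ℂ} (hv : SqS v) (hvi : Hi v)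
    (T : Finset (ι × ℝ)) (n : ι × ℝ → ℤ) (hT : ∀ x ∈ T, Hi (π x.1).tr) {g : 𝔓 → ℂ}
    {F : Finset 𝔓} (hg : ∀ p, p ∉ F → v (p, 0) = g p) {K : ℝ}
    (hK : MeanSqLE (fun p => g p - ∑ x ∈ T, (n x : ℂ) * atr π x p) K) {η : ℝ} (hη : 0 < η) :
    ∀ᶠ ε : ℝ in 𝓝[>] 0, (cip ε (dv π v T n) (dv π v T n)).re / La ε ≤ K + η := by
  classical
  have hi : Hi (dv π v T n) := by
    rw [dv_eq]
    exact hvi.add (Hi.sum T fun x hx => (vec_hi (hT x hx)).smul _)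
  exact norm_of_mean (dv_sqs h hv T n) hi (F ∪ T.biUnion fun x => (π x.1).bad)
    (fun p hp => dv_val T n hg hp) hK hη

theorem dv_pair (h : IsCuspidal π) {v : 𝔓 × ℕ → ℂ} (hv : SqS v) (T : Finset (ι × ℝ))
    (n : ι × ℝ → ℤ) (hn : ∀ x, x ∉ T → n x = 0) (y : ι × ℝ) :
    Tendsto (fun ε => (cip ε v (vec π y)).re / La ε - n y -
      (cip ε (dv π v T n) (vec π y)).re / La ε) (𝓝[>] 0) (𝓝 0) := by
  classical
  have h1 := (tendsto_finsetSum T fun x _ => (gram h x y).const_mul (n x : ℝ)).sub_const (n y : ℝ)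
  have e0 : ∑ x ∈ T, (n x : ℝ) * (if x = y then (1 : ℝ) else 0) - (n y : ℝ) = 0 := by
    simp only [mul_ite, mul_one, mul_zero]
    rw [Finset.sum_ite_eq' T y (fun x => (n x : ℝ))]
    split_ifs with h3
    · ring
    · rw [hn y h3]
      simp
  rw [e0] at h1
  refine h1.congr' ?_
  filter_upwards [self_mem_nhdsWithin] with ε h3
  have hε : 0 < ε := h3
  have e1 : cip ε (dv π v T n) (vec π y) = cip ε v (vec π y) +
      ∑ x ∈ T, (-(n x : ℂ)) * cip ε (vec π x) (vec π y) := by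
    rw [dv_eq]
    have s1 := (summable_pair hv (vec_sqs h y) hε).hasSum
    have s2 := hasSum_sum (s := T) fun x (_ : x ∈ T) =>
      (summable_pair (vec_sqs h x) (vec_sqs h y) hε).hasSum.mul_left (-(n x : ℂ))
    have s3 := s1.add s2
    refine HasSum.tsum_eq (s3.congr_fun fun q => ?_)
    rw [add_mul, mul_add, Finset.sum_mul, Finset.mul_sum]
    congr 1
    refine Finset.sum_congr rfl fun x _ => ?_
    ring
  rw [e1, Complex.add_re, Complex.re_sum, add_div, Finset.sum_div]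
  have e2 : ∑ x ∈ T, ((-(n x : ℂ)) * cip ε (vec π x) (vec π y)).re / La ε =
      -∑ x ∈ T, (n x : ℝ) * ((cip ε (vec π x) (vec π y)).re / La ε) := by
    rw [← Finset.sum_neg_distrib]
    refine Finset.sum_congr rfl fun x _ => ?_
    have e3 : (-(n x : ℂ)) = ((-(n x : ℝ) : ℝ) : ℂ) := by push_cast; ring
    rw [e3, Complex.re_ofReal_mul]
    ring
  rw [e2]
  ring

/-- the orders of a vector close to an isobaric sum -/
theorem dv_order (h : IsCuspidal π) {v : 𝔓 × ℕ → ℂ} (hv : SqS v) (hvi : Hi v)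
    (T : Finset (ι × ℝ)) (n : ι × ℝ → ℤ) (hn : ∀ x, x ∉ T → n x = 0)
    (hT : ∀ x ∈ T, Hi (π x.1).tr) {g : 𝔓 → ℂ}
    {F : Finset 𝔓} (hg : ∀ p, p ∉ F → v (p, 0) = g p) {K : ℝ}
    (hK : MeanSqLE (fun p => g p - ∑ x ∈ T, (n x : ℂ) * atr π x p) K) (hK1 : K < 1) (y : ι × ℝ)
    {r : ℤ} (hr : Tendsto (fun ε => (cip ε v (vec π y)).re / La ε) (𝓝[>] 0) (𝓝 (-r))) :
    r = -n y := by
  have hc : ∀ η : ℝ, 0 < η → ∀ᶠ ε : ℝ in 𝓝[>] 0,
      ((cip ε v (vec π y)).re / La ε - n y) ^ 2 ≤ K + η := by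
    intro η hη
    have h1 := core h (dv_sqs h hv T n) (fun η hη => dv_norm h hv hvi T n hT hg hK hη) {y}
      (a := fun x ε => (cip ε v (vec π x)).re / La ε - n x)
      (fun x _ => dv_pair h hv T n hn x) (half_pos hη)
    filter_upwards [h1, dv_norm h hv hvi T n hT hg hK (half_pos hη)] with ε h2 h3
    rw [Finset.sum_singleton] at h2
    linarith
  have h2 : (-(r : ℝ) - n y) ^ 2 ≤ K := by
    refine le_of_forall_pos_le_add fun η hη => ?_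
    exact le_of_tendsto ((hr.sub_const (n y : ℝ)).pow 2) (hc η hη)
  have h3 : (((r + n y) ^ 2 : ℤ) : ℝ) < 1 := by
    push_cast
    nlinarith
  have h4 : (r + n y) ^ 2 < 1 := by exact_mod_cast h3
  have h5 : r + n y = 0 := by
    by_contra h0
    have : 0 < (r + n y) ^ 2 := by positivity
    omega
  omega

/-- with distance zero all pairings converge -/
theorem dv_zero (h : IsCuspidal π) {v : 𝔓 × ℕ → ℂ} (hv : SqS v) (hvi : Hi v)
    (T : Finset (ι × ℝ)) (n : ι × ℝ → ℤ) (hn : ∀ x, x ∉ T → n x = 0)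
    (hT : ∀ x ∈ T, Hi (π x.1).tr) {g : 𝔓 → ℂ}
    {F : Finset 𝔓} (hg : ∀ p, p ∉ F → v (p, 0) = g p)
    (hK : MeanSqLE (fun p => g p - ∑ x ∈ T, (n x : ℂ) * atr π x p) 0) (y : ι × ℝ) :
    Tendsto (fun ε => (cip ε v (vec π y)).re / La ε) (𝓝[>] 0) (𝓝 (n y)) := by
  rw [Metric.tendsto_nhds]
  intro δ hδ
  have h1 := core h (dv_sqs h hv T n) (fun η hη => dv_norm h hv hvi T n hT hg hK hη) {y}
      (a := fun x ε => (cip ε v (vec π x)).re / La ε - n x)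
      (fun x _ => dv_pair h hv T n hn x) (η := δ ^ 2 / 4) (by positivity)
  filter_upwards [h1, dv_norm h hv hvi T n hT hg hK (η := δ ^ 2 / 4) (by positivity)]
    with ε h2 h3
  rw [Finset.sum_singleton] at h2
  rw [Real.dist_eq]
  refine abs_lt_of_sq_lt_sq ?_ hδ.le
  have : 0 < δ ^ 2 := by positivity
  linarith

/-- the gap -/
theorem dv_gap (h : IsCuspidal π) {v : 𝔓 × ℕ → ℂ} (hv : SqS v) (hvi : Hi v)
    (T : Finset (ι × ℝ)) (n : ι × ℝ → ℤ) (hn : ∀ x, x ∉ T → n x = 0)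
    (hT : ∀ x ∈ T, Hi (π x.1).tr) {g : 𝔓 → ℂ}
    {F : Finset 𝔓} (hg : ∀ p, p ∉ F → v (p, 0) = g p) {K : ℝ}
    (hK : MeanSqLE (fun p => g p - ∑ x ∈ T, (n x : ℂ) * atr π x p) K) (hK1 : K < 1) {k : ℤ}
    (hk : Tendsto (fun ε => (cip ε v v).re / La ε) (𝓝[>] 0) (𝓝 (k : ℝ))) {r : ι × ℝ → ℤ}
    (hr : ∀ x ∈ T, Tendsto (fun ε => (cip ε v (vec π x)).re / La ε) (𝓝[>] 0) (𝓝 (-(r x : ℝ)))) :
    k = ∑ x ∈ T, n x ^ 2 ∧ MeanSqLE (fun p => g p - ∑ x ∈ T, (n x : ℂ) * atr π x p) 0 := by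
  classical
  have hrn : ∀ x ∈ T, r x = -n x := fun x hx =>
    dv_order h hv hvi T n hn hT hg hK hK1 x (hr x hx)
  have hr' : ∀ x ∈ T, Tendsto (fun ε => (cip ε v (vec π x)).re / La ε) (𝓝[>] 0) (𝓝 (n x : ℝ)) := by
    intro x hx
    have := hr x hx
    rw [hrn x hx] at this
    push_cast at this
    rw [neg_neg] at this
    exact this
  have hd := distance T hv (fun x _ => vec_sqs h x) (n := fun x => (n x : ℝ)) hk hr'
    (fun x _ y _ => gram h x y)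
  have hsq := dv_sqs h hv T n
  have h0 : 0 ≤ (k : ℝ) - ∑ x ∈ T, (n x : ℝ) ^ 2 := by
    refine ge_of_tendsto hd ?_
    filter_upwards [self_mem_nhdsWithin, log_atTop.eventually_gt_atTop 0] with ε g1 g2
    exact div_nonneg (tsum_nonneg fun q => by have := (om_pos ε q).le; positivity) (le_of_lt g2)
  have h1 : (k : ℝ) - ∑ x ∈ T, (n x : ℝ) ^ 2 ≤ K := by
    refine le_of_forall_pos_le_add fun η hη => ?_
    refine le_of_tendsto hd ?_
    filter_upwards [dv_norm h hv hvi T n hT hg hK hη, self_mem_nhdsWithin] with ε g1 g2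
    rw [← (self_hasSum hsq g2).tsum_eq] at g1
    exact g1
  have hz : k = ∑ x ∈ T, n x ^ 2 := by
    have a1 : ((k - ∑ x ∈ T, n x ^ 2 : ℤ) : ℝ) < 1 := by push_cast; linarith
    have a2 : (0 : ℝ) ≤ ((k - ∑ x ∈ T, n x ^ 2 : ℤ) : ℝ) := by push_cast; linarith
    have a3 : k - ∑ x ∈ T, n x ^ 2 < 1 := by exact_mod_cast a1
    have a4 : 0 ≤ k - ∑ x ∈ T, n x ^ 2 := by exact_mod_cast a2
    omega
  refine ⟨hz, ?_⟩
  have e0 : (k : ℝ) - ∑ x ∈ T, (n x : ℝ) ^ 2 = 0 := by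
    rw [hz]
    push_cast
    ring
  rw [e0] at hd
  exact mean_of_norm hsq (F ∪ T.biUnion fun x => (π x.1).bad) (fun p hp => dv_val T n hg hp) hd

end

theorem tr_le_of_tempered {S : Sys 𝔓} (h : ∀ p, p ∉ S.bad → ∀ z ∈ S.ev p, ‖z‖ ≤ 1)
    (q : 𝔓 × ℕ) : ‖S.tr q‖ ≤ S.rank := by
  unfold Sys.tr
  split_ifs with h1
  · simp
  · have h2 := norm_ps_le (s := S.ev q.1) (r := 1) (h q.1 h1) (q.2 + 1)
    rw [one_pow, mul_one, S.card q.1 h1] at h2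
    exact h2

/-- agreement outside a set of primes -/
theorem mean_of_density {f : 𝔓 → ℂ} {A : ℝ} {P : Set 𝔓} {δ : ℝ}
    (hP : MeanSqLE (P.indicator 1) δ) (hA : ∀ᶠ p in cofinite, ‖f p‖ ≤ A)
    (hf : ∀ᶠ p in cofinite, p ∉ P → f p = 0) : MeanSqLE f (A ^ 2 * δ) := by
  classical
  set F : Finset 𝔓 := (eventually_cofinite.1 (hA.and hf)).toFinset with hF
  have hgood : ∀ p, p ∉ F → ‖f p‖ ≤ A ∧ (p ∉ P → f p = 0) := by
    intro p hp
    rw [hF, Set.Finite.mem_toFinset, Set.mem_ofPred_eq, not_not] at hp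
    exact hp
  intro η hη
  set C : ℝ := ∑ p ∈ F, ‖f p‖ ^ 2 with hC
  have hlim : Tendsto (fun ε => C / La ε) (𝓝[>] 0) (𝓝 0) := div_log tendsto_const_nhds
  have hη' : 0 < η / (2 * (A ^ 2 + 1)) := by positivity
  filter_upwards [hP _ hη', hlim.eventually (gt_mem_nhds (half_pos hη)),
    self_mem_nhdsWithin, log_atTop.eventually_gt_atTop 0] with ε h1 h2 h3 h4
  have hε : 0 < ε := h3
  have hL : 0 < La ε := h4
  have c1 : HasSum (fun p => if p ∈ F then ‖f p‖ ^ 2 else 0) C := by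
    have h0 : HasSum (fun p => if p ∈ F then ‖f p‖ ^ 2 else 0)
        (∑ p ∈ F, if p ∈ F then ‖f p‖ ^ 2 else 0) :=
      hasSum_sum_of_ne_finset_zero (fun p hp => by simp [hp])
    rwa [Finset.sum_congr rfl (fun p hp => by
      show (if p ∈ F then ‖f p‖ ^ 2 else 0) = ‖f p‖ ^ 2
      simp [hp])] at h0
  have c2 := (h1.1.hasSum.mul_left (A ^ 2)).add c1
  have hle : ∀ p : 𝔓, ((p : ℕ) : ℝ) ^ (-(1 + ε)) * ‖f p‖ ^ 2 ≤
      A ^ 2 * (((p : ℕ) : ℝ) ^ (-(1 + ε)) * ‖P.indicator (1 : 𝔓 → ℂ) p‖ ^ 2) +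
        (if p ∈ F then ‖f p‖ ^ 2 else 0) := by
    intro p
    have c3 : (0 : ℝ) ≤ ((p : ℕ) : ℝ) ^ (-(1 + ε)) := by positivity
    split_ifs with hp
    · have c4 := om_le_one hε.le (p, 0)
      rw [om_zero] at c4
      have c5 : ((p : ℕ) : ℝ) ^ (-(1 + ε)) * ‖f p‖ ^ 2 ≤ 1 * ‖f p‖ ^ 2 :=
        mul_le_mul_of_nonneg_right c4 (by positivity)
      have c6 : 0 ≤ A ^ 2 * (((p : ℕ) : ℝ) ^ (-(1 + ε)) *
        ‖P.indicator (1 : 𝔓 → ℂ) p‖ ^ 2) := by positivity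
      linarith
    · obtain ⟨g1, g2⟩ := hgood p hp
      by_cases hpP : p ∈ P
      · rw [Set.indicator_of_mem hpP]
        simp only [Pi.one_apply, norm_one, one_pow, mul_one, add_zero]
        have g3 : ‖f p‖ ^ 2 ≤ A ^ 2 := pow_le_pow_left₀ (norm_nonneg _) g1 2
        nlinarith
      · rw [g2 hpP, Set.indicator_of_notMem hpP]
        simp
  have hsum : Summable (fun p : 𝔓 => ((p : ℕ) : ℝ) ^ (-(1 + ε)) * ‖f p‖ ^ 2) :=
    Summable.of_nonneg_of_le (fun p => by positivity) hle c2.summable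
  refine ⟨hsum, ?_⟩
  have d1 := hsum.tsum_le_tsum hle c2.summable
  rw [c2.tsum_eq] at d1
  have h7 : Real.log (1 / ε) = La ε := rfl
  have h8 := h1.2
  rw [h7] at h8 ⊢
  rw [div_lt_iff₀ hL] at h2
  have h9 : A ^ 2 * (∑' p : 𝔓, ((p : ℕ) : ℝ) ^ (-(1 + ε)) *
      ‖P.indicator (1 : 𝔓 → ℂ) p‖ ^ 2) ≤
      A ^ 2 * ((δ + η / (2 * (A ^ 2 + 1))) * La ε) := mul_le_mul_of_nonneg_left h8 (sq_nonneg A)
  have h10 : A ^ 2 * (η / (2 * (A ^ 2 + 1))) ≤ η / 2 := by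
    rw [mul_div_assoc', div_le_div_iff₀ (by positivity) (by norm_num)]
    nlinarith [sq_nonneg A]
  nlinarith

/-- tempered representations -/
theorem hi_of_tempered {S : Sys 𝔓} (h : ∀ p, p ∉ S.bad → ∀ z ∈ S.ev p, ‖z‖ ≤ 1) : Hi S.tr :=
  hi_bdd (tr_le_of_tempered h)

section
variable {ι : Type} {π : ι → Sys 𝔓}

theorem norm_atr {x : ι × ℝ} (h : ∀ p, p ∉ (π x.1).bad → ∀ z ∈ (π x.1).ev p, ‖z‖ ≤ 1)
    {p : 𝔓} (hp : p ∉ (π x.1).bad) : ‖atr π x p‖ ≤ (π x.1).rank := by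
  have h1 := norm_ps_le (s := (π x.1).ev p) (r := 1) (h p hp) 1
  unfold atr
  rw [norm_mul, norm_cpow_I, mul_one, ← ps_one]
  rw [one_pow, mul_one, (π x.1).card p hp] at h1
  exact h1

end

theorem mean_nonneg {f : 𝔓 → ℂ} {K : ℝ} (h : MeanSqLE f K) : 0 ≤ K := by
  refine le_of_forall_pos_le_add fun η hη => ?_
  obtain ⟨ε, h1, h2⟩ := ((h η hη).and (log_atTop.eventually_gt_atTop 0)).exists
  have h3 : 0 ≤ ∑' p : 𝔓, ((p : ℕ) : ℝ) ^ (-(1 + ε)) * ‖f p‖ ^ 2 :=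
    tsum_nonneg fun p => by positivity
  have h4 := h3.trans h1.2
  exact nonneg_of_mul_nonneg_left h4 h2

end Run7.h736.NF
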