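import Pool.Agent.Run7.h736.NF.P4

/-! The pole of `L(S × S~)` and the orders of the `L(S × Π_x~)`; number fields. -/

set_option autoImplicit false
set_option linter.unusedSectionVars false

open Filter Topology Complex ComplexConjugate Finset

namespace Run7.h736.NF

open Run7.h736.AU (ps ten ps_zero ps_cons ps_add ps_smul ps_conj ten_zero ten_cons ps_ten ten_smul
  norm_ps_le factor_hasSum log_atTop div_log)

section
variable {𝔓 : Type} [Places 𝔓] [DecidableEq 𝔓] {ι : Type} {π : ι → Sys 𝔓}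

/-- The size `log |L(S × Π_x~, 1 + ε)| / log(1/ε)` at the edge, where `Π_x = π_e ⊗ |det|^(-iτ)`,
`x = (e, τ)`. -/
noncomputable def sz (π : ι → Sys 𝔓) (S : Sys 𝔓) (x : ι × ℝ) (ε : ℝ) : ℝ :=
  Real.log ‖RS S (π x.1) (1 + ε + x.2 * I)‖ / Real.log (1 / ε)

theorem sz_eq (h : IsCuspidal π) {S : Sys 𝔓} (hv : SqS S.tr) (x : ι × ℝ) {ε : ℝ} (hε : 0 < ε) :
    sz π S x ε = (cip ε S.tr (vec π x)).re / La ε := by
  unfold sz
  rw [← RS_shift, log_RS hv (twist_sqs (h.conv x.1) x.2) hε]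
  rfl

theorem dv_small (h : IsCuspidal π) {v : 𝔓 × ℕ → ℂ} (hv : SqS v)
    (T : Finset (ι × ℝ)) (n : ι × ℝ → ℤ) (hn : ∀ x, x ∉ T → n x = 0)
    (hN : ∀ η : ℝ, 0 < η → ∀ᶠ ε : ℝ in 𝓝[>] 0,
      (cip ε (dv π v T n) (dv π v T n)).re / La ε ≤ 0 + η) (y : ι × ℝ) :
    Tendsto (fun ε => (cip ε v (vec π y)).re / La ε) (𝓝[>] 0) (𝓝 (n y)) := by
  rw [Metric.tendsto_nhds]
  intro δ hδ
  have h1 := core h (dv_sqs h hv T n) hN {y}
      (a := fun x ε => (cip ε v (vec π x)).re / La ε - n x)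
      (fun x _ => dv_pair h hv T n hn x) (η := δ ^ 2 / 4) (by positivity)
  filter_upwards [h1, hN (δ ^ 2 / 4) (by positivity)] with ε h2 h3
  rw [Finset.sum_singleton] at h2
  rw [Real.dist_eq]
  refine abs_lt_of_sq_lt_sq ?_ hδ.le
  have : 0 < δ ^ 2 := by positivity
  linarith

/-- the pole and the sum of the squares of the orders -/
theorem dv_pole (h : IsCuspidal π) {v : 𝔓 × ℕ → ℂ} (hv : SqS v)
    (T : Finset (ι × ℝ)) (n : ι × ℝ → ℤ) (hn : ∀ x, x ∉ T → n x = 0)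
    {g : 𝔓 → ℂ} {F : Finset 𝔓} (hg : ∀ p, p ∉ F → v (p, 0) = g p) {k : ℤ}
    (hk : Tendsto (fun ε => (cip ε v v).re / La ε) (𝓝[>] 0) (𝓝 (k : ℝ)))
    (hr : ∀ x ∈ T, Tendsto (fun ε => (cip ε v (vec π x)).re / La ε) (𝓝[>] 0) (𝓝 (n x : ℝ))) :
    ∑ x ∈ T, n x ^ 2 ≤ k ∧
    (∑ x ∈ T, n x ^ 2 = k → MeanSqLE (fun p => g p - ∑ x ∈ T, (n x : ℂ) * atr π x p) 0 ∧
      ∀ y : ι × ℝ, Tendsto (fun ε => (cip ε v (vec π y)).re / La ε) (𝓝[>] 0) (𝓝 (n y))) := by
  classical
  have hd := distance T hv (fun x _ => vec_sqs h x) (n := fun x => (n x : ℝ)) hk hr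
    (fun x _ y _ => gram h x y)
  have hsq := dv_sqs h hv T n
  have h0 : 0 ≤ (k : ℝ) - ∑ x ∈ T, (n x : ℝ) ^ 2 := by
    refine ge_of_tendsto hd ?_
    filter_upwards [self_mem_nhdsWithin, log_atTop.eventually_gt_atTop 0] with ε g1 g2
    exact div_nonneg (tsum_nonneg fun q => by have := (om_pos ε q).le; positivity) (le_of_lt g2)
  refine ⟨?_, fun hz => ?_⟩
  · have a2 : (0 : ℝ) ≤ ((k - ∑ x ∈ T, n x ^ 2 : ℤ) : ℝ) := by push_cast; linarith
    have a4 : 0 ≤ k - ∑ x ∈ T, n x ^ 2 := by exact_mod_cast a2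
    linarith
  · have e0 : (k : ℝ) - ∑ x ∈ T, (n x : ℝ) ^ 2 = 0 := by
      rw [← hz]
      push_cast
      ring
    rw [e0] at hd
    refine ⟨mean_of_norm hsq (F ∪ T.biUnion fun x => (π x.1).bad)
      (fun p hp => dv_val T n hg hp) hd, fun y => dv_small h hv T n hn (fun η hη => ?_) y⟩
    filter_upwards [hd.eventually (gt_mem_nhds (show (0 : ℝ) < 0 + η by linarith)),
      self_mem_nhdsWithin] with ε g1 g2
    have hε : 0 < ε := g2
    rw [← (self_hasSum hsq hε).tsum_eq]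
    exact le_of_lt g1

theorem sys_val (S : Sys 𝔓) : ∀ p, p ∉ S.bad → S.tr (p, 0) = (S.ev p).sum := by
  intro p hp
  unfold Sys.tr
  simp only
  rw [if_neg hp, zero_add, ps_one]

theorem self_limit {S : Sys 𝔓} (hv : SqS S.tr) {k : ℤ} (hk : RSOrder S S 0 (-k)) :
    Tendsto (fun ε => (cip ε S.tr S.tr).re / La ε) (𝓝[>] 0) (𝓝 (k : ℝ)) := by
  have := rs_limit hv hv hk
  rw [twist_zero_tr] at this
  push_cast at this
  rw [neg_neg] at this
  exact this

/-- **Bessel's inequality** for the sizes, in terms of the pole of `L(S × S~)`. -/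
theorem sz_bessel (h : IsCuspidal π) {S : Sys 𝔓} (hv : SqS S.tr) {k : ℤ}
    (hk : RSOrder S S 0 (-k)) (X : Finset (ι × ℝ)) {η : ℝ} (hη : 0 < η) :
    ∀ᶠ ε : ℝ in 𝓝[>] 0, ∑ x ∈ X, sz π S x ε ^ 2 ≤ k + η := by
  have hl := self_limit hv hk
  have hK : ∀ η : ℝ, 0 < η → ∀ᶠ ε : ℝ in 𝓝[>] 0, (cip ε S.tr S.tr).re / La ε ≤ k + η := by
    intro η hη
    filter_upwards [hl.eventually (gt_mem_nhds (show (k : ℝ) < k + η by linarith))] with ε h1
    exact le_of_lt h1
  have h1 := core h hv hK X (a := fun x ε => sz π S x ε) (fun x _ => by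
    refine tendsto_const_nhds.congr' ?_
    filter_upwards [self_mem_nhdsWithin] with ε h2
    have hε : 0 < ε := h2
    rw [sz_eq h hv x hε, sub_self]) (half_pos hη)
  filter_upwards [h1, hK (η / 2) (half_pos hη)] with ε h2 h3
  linarith

/-- **The pole of `L(S × S~)` and the orders of `L(S × Π_x~)`.** -/
theorem pole_orders (h : IsCuspidal π) {S : Sys 𝔓} (hv : SqS S.tr) {k : ℤ}
    (hk : RSOrder S S 0 (-k)) (T : Finset (ι × ℝ)) (r : ι × ℝ → ℤ)
    (hr0 : ∀ x, x ∉ T → r x = 0) (hr : ∀ x ∈ T, RSOrder S (π x.1) x.2 (r x)) :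
    ∑ x ∈ T, r x ^ 2 ≤ k ∧
    (∑ x ∈ T, r x ^ 2 = k → MeanSqLE (fun p => (S.ev p).sum + ∑ x ∈ T, (r x : ℂ) * atr π x p) 0 ∧
      ∀ y : ι × ℝ, Tendsto (fun ε => sz π S y ε) (𝓝[>] 0) (𝓝 (-r y))) := by
  have h1 := dv_pole h hv T (fun x => -r x) (fun x hx => by simp [hr0 x hx]) (sys_val S)
    (self_limit hv hk) (fun x hx => by
      have := rs_limit hv (h.conv x.1) (hr x hx)
      push_cast
      exact this)
  simp only [neg_sq] at h1
  refine ⟨h1.1, fun hz => ⟨?_, fun y => ?_⟩⟩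
  · have h2 := (h1.2 hz).1
    have e : (fun p => (S.ev p).sum - ∑ x ∈ T, ((-r x : ℤ) : ℂ) * atr π x p) =
        fun p => (S.ev p).sum + ∑ x ∈ T, (r x : ℂ) * atr π x p := by
      funext p
      rw [sub_eq_add_neg, ← Finset.sum_neg_distrib]
      congr 1
      refine Finset.sum_congr rfl fun x _ => ?_
      push_cast
      ring
    rw [e] at h2
    exact h2
  · have h2 := (h1.2 hz).2 y
    push_cast at h2
    refine h2.congr' ?_
    filter_upwards [self_mem_nhdsWithin] with ε h3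
    have hε : 0 < ε := h3
    rw [sz_eq h hv y hε]

/-- **The gap.** -/
theorem gap (h : IsCuspidal π) {S : Sys 𝔓} (hv : SqS S.tr) (hvi : Hi S.tr)
    (T : Finset (ι × ℝ)) (n : ι × ℝ → ℤ) (hn : ∀ x, x ∉ T → n x = 0)
    (hT : ∀ x ∈ T, Hi (π x.1).tr) {K : ℝ} (hK1 : K < 1)
    (hK : MeanSqLE (fun p => (S.ev p).sum - ∑ x ∈ T, (n x : ℂ) * atr π x p) K) :
    (∀ (x : ι × ℝ) (r : ℤ), RSOrder S (π x.1) x.2 r → r = -n x) ∧
    ∀ k : ℤ, RSOrder S S 0 (-k) → ∀ r : ι × ℝ → ℤ, (∀ x ∈ T, RSOrder S (π x.1) x.2 (r x)) →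
      k = ∑ x ∈ T, n x ^ 2 ∧
      MeanSqLE (fun p => (S.ev p).sum - ∑ x ∈ T, (n x : ℂ) * atr π x p) 0 ∧
      ∀ y : ι × ℝ, Tendsto (fun ε => sz π S y ε) (𝓝[>] 0) (𝓝 (n y)) := by
  refine ⟨fun x r hr => ?_, fun k hk r hr => ?_⟩
  · exact dv_order h hv hvi T n hn hT (sys_val S) hK hK1 x (rs_limit hv (h.conv x.1) hr)
  · obtain ⟨g1, g2⟩ := dv_gap h hv hvi T n hn hT (sys_val S) hK hK1 (self_limit hv hk) (r := r)
      (fun x hx => rs_limit hv (h.conv x.1) (hr x hx))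
    refine ⟨g1, g2, fun y => ?_⟩
    refine (dv_zero h hv hvi T n hn hT (sys_val S) g2 y).congr' ?_
    filter_upwards [self_mem_nhdsWithin] with ε h2
    have hε : 0 < ε := h2
    rw [sz_eq h hv y hε]

end

/-! Number fields. -/

section
variable (F : Type) [Field F] [NumberField F]

open NumberField Ideal IsDedekindDomain

/-- the rational prime below (as in the starting file `K4H74.SC.Sum`, with the next lemmas) -/
noncomputable def bel (q : HeightOneSpectrum (𝓞 F)) : ℕ := absNorm (under ℤ q.asIdeal)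

variable {F}

theorem bel_prime (q : HeightOneSpectrum (𝓞 F)) : (bel F q).Prime := by
  have := q.isPrime
  have : NeZero q.asIdeal := ⟨q.ne_bot⟩
  exact Nat.absNorm_under_prime q.asIdeal

theorem bel_le (q : HeightOneSpectrum (𝓞 F)) : bel F q ≤ absNorm q.asIdeal :=
  Nat.le_of_dvd (Nat.pos_of_ne_zero (fun h => q.ne_bot (absNorm_eq_zero_iff.mp h)))
    (Int.absNorm_under_dvd_absNorm q.asIdeal)

theorem fibre_card (T : Finset (HeightOneSpectrum (𝓞 F))) (n : ℕ) :
    (T.filter (fun q => bel F q = n)).card ≤ Module.finrank ℚ F := by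
  classical
  by_cases hn : n.Prime
  · let I : Ideal ℤ := span {(n : ℤ)}
    have hI : I ≠ ⊥ := by
      simp only [I, ne_eq, span_singleton_eq_bot]
      exact_mod_cast hn.ne_zero
    have hIp : I.IsPrime := (span_singleton_prime (by exact_mod_cast hn.ne_zero)).mpr
      (Nat.prime_iff_prime_int.mp hn)
    have hIm : I.IsMaximal := hIp.isMaximal hI
    have h1 := Ideal.card_primesOverFinset_le_finrank (R := ℤ) (S := 𝓞 F) (K := ℚ) (L := F)
      (p := I) hI
    refine le_trans ?_ h1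
    refine Finset.card_le_card_of_injOn (fun q => q.asIdeal) ?_ ?_
    · intro q hq
      rw [Finset.mem_coe, Finset.mem_filter] at hq
      rw [Finset.mem_coe, IsDedekindDomain.mem_primesOverFinset_iff hI]
      refine ⟨q.isPrime, ⟨?_⟩⟩
      have h2 : span {((absNorm (under ℤ q.asIdeal) : ℕ) : ℤ)} = under ℤ q.asIdeal :=
        Int.ideal_span_absNorm_eq_self _
      rw [← h2]
      change I = span {((bel F q : ℕ) : ℤ)}
      rw [hq.2]
    · intro q _ q' _ h
      exact HeightOneSpectrum.ext h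
  · have h1 : T.filter (fun q => bel F q = n) = ∅ := by
      rw [Finset.filter_eq_empty_iff]
      intro q _ h
      exact hn (h ▸ bel_prime q)
    rw [h1, Finset.card_empty]
    exact Nat.zero_le _

/-- the sum over the primes converges -/
theorem summable_absNorm {t : ℝ} (ht : 1 < t) :
    Summable (fun q : HeightOneSpectrum (𝓞 F) => ((absNorm q.asIdeal : ℕ) : ℝ) ^ (-t)) := by
  classical
  have h0 : Summable (fun n : ℕ => ((n : ℕ) : ℝ) ^ (-t)) :=
    Real.summable_nat_rpow.mpr (by linarith)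
  have hpos : ∀ n : ℕ, 0 ≤ ((n : ℕ) : ℝ) ^ (-t) := fun n => Real.rpow_nonneg (Nat.cast_nonneg _) _
  refine summable_of_sum_le (c := Module.finrank ℚ F * ∑' n : ℕ, ((n : ℕ) : ℝ) ^ (-t))
    (fun q => hpos _) fun T => ?_
  calc ∑ q ∈ T, ((absNorm q.asIdeal : ℕ) : ℝ) ^ (-t)
      ≤ ∑ q ∈ T, ((bel F q : ℕ) : ℝ) ^ (-t) := by
        refine Finset.sum_le_sum fun q _ => ?_
        refine Real.rpow_le_rpow_of_nonpos ?_ ?_ (by linarith)
        · exact_mod_cast (bel_prime q).pos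
        · exact_mod_cast bel_le q
    _ = ∑ n ∈ T.image (bel F), ∑ q ∈ T.filter (fun q => bel F q = n),
          ((bel F q : ℕ) : ℝ) ^ (-t) :=
        (Finset.sum_fiberwise_of_maps_to (fun q hq => Finset.mem_image_of_mem _ hq) _).symm
    _ = ∑ n ∈ T.image (bel F), ((T.filter (fun q => bel F q = n)).card : ℝ) *
          ((n : ℕ) : ℝ) ^ (-t) := by
        refine Finset.sum_congr rfl fun n _ => ?_
        rw [← nsmul_eq_mul, ← Finset.sum_const]
        refine Finset.sum_congr rfl fun q hq => ?_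
        rw [(Finset.mem_filter.mp hq).2]
    _ ≤ ∑ n ∈ T.image (bel F), (Module.finrank ℚ F : ℝ) * ((n : ℕ) : ℝ) ^ (-t) := by
        refine Finset.sum_le_sum fun n _ => ?_
        refine mul_le_mul_of_nonneg_right ?_ (hpos n)
        exact_mod_cast fibre_card T n
    _ = (Module.finrank ℚ F : ℝ) * ∑ n ∈ T.image (bel F), ((n : ℕ) : ℝ) ^ (-t) := by
        rw [Finset.mul_sum]
    _ ≤ _ := by
        refine mul_le_mul_of_nonneg_left ?_ (Nat.cast_nonneg _)
        exact h0.sum_le_tsum _ (fun n _ => hpos n)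

/-- The nonzero prime ideals of a number field with their absolute norms. -/
noncomputable instance placesNF : Places (HeightOneSpectrum (𝓞 F)) where
  nm := fun v => absNorm v.asIdeal
  one_lt := fun v => lt_of_lt_of_le (bel_prime v).one_lt (bel_le v)
  sum := fun ε hε => summable_absNorm (by linarith)

noncomputable instance decNF : DecidableEq (HeightOneSpectrum (𝓞 F)) := Classical.decEq _

end

end Run7.h736.NF
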